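import Pool.Agent.H7.GT.Rows

/-!
# Row CV2 of the board of the quasimodes
-/

set_option autoImplicit false

namespace Pool.Agent.H7.GT

open MeasureTheory Set ENNReal

variable {l u : ℝ} {f p : ℝ → ℝ} {r r' x y : ℝ}

/-- The square of the flat average. -/
lemma fa_sq {R : ℝ → ℝ} (hx : 0 < R x) {g : ℝ → ℝ}
    (h1 : IntegrableOn g (Ioo (x - 3 / 4 * R x) (x + 3 / 4 * R x)))
    (h2 : IntegrableOn (fun y => g y ^ 2) (Ioo (x - 3 / 4 * R x) (x + 3 / 4 * R x))) :
    H79.GT.fa R g x ^ 2 ≤ 3 / 2 * H79.GT.fa R (fun y => g y ^ 2) x := by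
  unfold H79.GT.fa
  set B := Ioo (x - 3 / 4 * R x) (x + 3 / 4 * R x) with hB
  set a := ∫ y in B, g y with ha
  set b := ∫ y in B, g y ^ 2 with hb
  have hvol : volume.real B = 3 / 2 * R x := by
    rw [hB, Real.volume_real_Ioo_of_le (by linarith)]
    ring
  set m := a / (3 / 2 * R x) with hm
  have h3 : ∫ y in B, (g y - m) ^ 2 = b - 2 * m * a + m ^ 2 * (3 / 2 * R x) := by
    have e : ∀ y, (g y - m) ^ 2 = g y ^ 2 - 2 * m * g y + m ^ 2 := fun y => by ring
    have i1 : IntegrableOn (fun y => 2 * m * g y) B := h1.const_mul _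
    have i2 : IntegrableOn (fun y => g y ^ 2 - 2 * m * g y) B := h2.sub i1
    simp_rw [e]
    rw [integral_add i2 (integrableOn_const (by rw [hB]; simp)), integral_sub h2 i1,
      integral_const_mul, setIntegral_const, hvol, smul_eq_mul]
    ring
  have h4 : 0 ≤ ∫ y in B, (g y - m) ^ 2 := integral_nonneg fun y => sq_nonneg _
  rw [h3] at h4
  have h5 : b - 2 * m * a + m ^ 2 * (3 / 2 * R x) = b - a ^ 2 / (3 / 2 * R x) := by
    rw [hm]
    field_simp
    ring
  rw [h5] at h4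
  have h6 : ((R x)⁻¹ * a) ^ 2 = 3 / 2 * ((R x)⁻¹ * (a ^ 2 / (3 / 2 * R x))) := by
    field_simp
  rw [h6]
  have h7 : a ^ 2 / (3 / 2 * R x) ≤ b := by linarith
  gcongr

theorem CV2 : H79.GT.T_CV2 := by
  intro f p l u hD φ hφm hφ δ hδ
  have H := dat_of hD
  obtain ⟨δ0, hδ0, h⟩ := osc2 (l := l) (u := u) 34 (by simp) hφm hφ
    (ε := ENNReal.ofReal (2 / 3 * δ)) (by simpa using hδ)
  obtain ⟨r0, hr0, hs⟩ := H.rad_small hδ0
  refine ⟨r0, hr0, fun r hr hrr => ?_⟩
  have hR := H.radF hr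
  have hK : Ker l u 34 δ0 (kB (rad l u p r)) := kB_ker hR fun x _ => hs r hr.le hrr x
  have hm2 : Measurable (Function.uncurry fun x y : ℝ => |φ y - φ x|) := by
    have := (hφm.comp measurable_snd).sub (hφm.comp (measurable_fst (α := ℝ) (β := ℝ)))
    exact this.abs
  have hm3 : Measurable (Function.uncurry fun x y : ℝ => |φ y - φ x| ^ 2) := by
    have h4 : Measurable fun z : ℝ × ℝ => (Function.uncurry fun x y : ℝ => |φ y - φ x|) z ^ 2 :=
      hm2.pow_const 2
    exact h4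
  obtain ⟨h1, h2⟩ := fa_int hR (Φ := fun x y => |φ y - φ x| ^ 2) hm3 (fun x y => by positivity)
    (b := 2 / 3 * δ) (by positivity) (h _ hK)
  show IntegrableOn (fun x => H79.GT.fa (rad l u p r) (fun y => |φ y - φ x|) x ^ 2) (Ioo l u) ∧
    ∫ x in Ioo l u, H79.GT.fa (rad l u p r) (fun y => |φ y - φ x|) x ^ 2 ≤ δ
  have hφ1 : IntegrableOn φ (Ioo l u) := by
    have h3 : IntegrableOn (fun x => φ x ^ 2 + 1) (Ioo l u) :=
      hφ.add (integrableOn_const (by simp))
    refine Integrable.mono' h3 hφm.aestronglyMeasurable (Filter.Eventually.of_forall fun x => ?_)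
    rw [Real.norm_eq_abs, abs_le]
    constructor
    · nlinarith [sq_nonneg (φ x + 1), sq_nonneg (φ x)]
    · nlinarith [sq_nonneg (φ x - 1), sq_nonneg (φ x)]
  have hle : ∀ x ∈ Ioo l u, H79.GT.fa (rad l u p r) (fun y => |φ y - φ x|) x ^ 2 ≤
      3 / 2 * H79.GT.fa (rad l u p r) (fun y => |φ y - φ x| ^ 2) x := by
    intro x hx
    have hsub := ball_sub hR hx
    have i1 : IntegrableOn (fun y => |φ y - φ x|)
        (Ioo (x - 3 / 4 * rad l u p r x) (x + 3 / 4 * rad l u p r x)) :=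
      ((hφ1.mono_set hsub).sub (integrableOn_const (by simp))).abs
    refine fa_sq (hR.pos x hx) i1 ?_
    have i2 : IntegrableOn (fun y => φ y ^ 2 - 2 * φ x * φ y + φ x ^ 2)
        (Ioo (x - 3 / 4 * rad l u p r x) (x + 3 / 4 * rad l u p r x)) :=
      ((hφ.mono_set hsub).sub ((hφ1.mono_set hsub).const_mul _)).add
        (integrableOn_const (by simp))
    refine i2.congr (Filter.Eventually.of_forall fun y => ?_)
    show φ y ^ 2 - 2 * φ x * φ y + φ x ^ 2 = |φ y - φ x| ^ 2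
    rw [sq_abs]
    ring
  have hmm : Measurable fun x => H79.GT.fa (rad l u p r) (fun y => |φ y - φ x|) x ^ 2 :=
    (fa_meas hR.cont (Φ := fun x y => |φ y - φ x|) hm2).pow_const 2
  have h1' := h1.const_mul (3 / 2 : ℝ)
  have hi : IntegrableOn (fun x => H79.GT.fa (rad l u p r) (fun y => |φ y - φ x|) x ^ 2)
      (Ioo l u) := by
    refine Integrable.mono' h1' hmm.aestronglyMeasurable
      ((ae_restrict_mem measurableSet_Ioo).mono fun x hx => ?_)
    rw [Real.norm_eq_abs, abs_of_nonneg (sq_nonneg _)]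
    exact hle x hx
  refine ⟨hi, ?_⟩
  calc ∫ x in Ioo l u, H79.GT.fa (rad l u p r) (fun y => |φ y - φ x|) x ^ 2
      ≤ ∫ x in Ioo l u, 3 / 2 * H79.GT.fa (rad l u p r) (fun y => |φ y - φ x| ^ 2) x :=
        setIntegral_mono_on hi h1' measurableSet_Ioo hle
    _ = 3 / 2 * ∫ x in Ioo l u, H79.GT.fa (rad l u p r) (fun y => |φ y - φ x| ^ 2) x :=
        integral_const_mul _ _
    _ ≤ 3 / 2 * (2 / 3 * δ) := by gcongr
    _ = δ := by ring

end Pool.Agent.H7.GT
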