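import Pool.Agent.H7.GT.Pt
import Pool.Agent.H79.GT.Targets

/-!
# Rows RAD, SM, SAME, AV1, CV1, CV2, WK, INV of the board of the quasimodes
-/

set_option autoImplicit false

namespace Pool.Agent.H7.GT

open MeasureTheory Set ENNReal

variable {l u : ℝ} {f p : ℝ → ℝ} {r r' x y : ℝ}

lemma dat_of (h : H79.GT.Dns f p l u) : Dat l u f p :=
  ⟨h.lt, h.meas, h.nonneg, h.sq, h.mass, h.inc⟩

lemma rad_eq79 : H79.GT.rad p l u r x = rad l u p r x := rfl

lemma not_zone_of (hr : 0 < r) (h1 : l ≤ x) (h2 : x ≤ u) (h : ¬ H79.GT.Zn p l u r x) :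
    x ∉ zone l u p r ∧ l < x ∧ x < u := by
  unfold H79.GT.Zn at h
  push Not at h
  have h3 : l < x := by
    rcases h1.eq_or_lt with h4 | h4
    · rw [h4] at h; simp at h; linarith [h.1]
    · exact h4
  have h5 : x < u := by
    rcases h2.eq_or_lt with h4 | h4
    · rw [h4] at h; simp at h; linarith [h.2]
    · exact h4
  refine ⟨?_, h3, h5⟩
  simp only [zone, mem_ofPred_eq]
  push Not
  exact ⟨h3, h5, h.1, h.2⟩

theorem RAD : H79.GT.T_RAD := by
  intro f p l u hD r hr
  have H := dat_of hD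
  refine ⟨fun x h1 h2 => H.rad_mem hr.le ⟨h1, h2⟩, fun x h1 h2 => H.rad_pos hr ⟨h1, h2⟩,
    fun x y => H.rad_abs x y, fun x h1 h2 h3 => H.rad_mass hr.le (not_zone_of hr h1 h2 h3).1⟩

theorem SM : H79.GT.T_SM := by
  intro f p l u hD η hη
  obtain ⟨r0, h0, h⟩ := (dat_of hD).rad_small hη
  exact ⟨r0, h0, fun r hr hr0 x => h r hr.le hr0 x⟩

theorem SAME : H79.GT.T_SAME := by
  intro f f' p l u l' u' hD hD' r hr x h1 h2 h3 h4 hz hz'
  have H := dat_of hD
  have H' := dat_of hD'
  have m1 := H.rad_mass hr.le (not_zone_of hr h1.le h2.le hz).1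
  have m2 := H'.rad_mass hr.le (not_zone_of hr h3.le h4.le hz').1
  have q1 := H.rad_mem hr.le (⟨h1.le, h2.le⟩ : x ∈ Icc l u)
  have q2 := H'.rad_mem hr.le (⟨h3.le, h4.le⟩ : x ∈ Icc l' u')
  rw [rad_eq79, rad_eq79]
  set ρ := rad l u p r x
  set ρ' := rad l' u' p r x
  rcases lt_trichotomy ρ ρ' with h | h | h
  · exfalso
    have a1 := H'.smono (x + ρ) (x + ρ') (by linarith [q1.1]) (by linarith) q2.2.2.1
    have a2 := H'.mono (x := x - ρ') (y := x - ρ) q2.2.1 (by linarith) (by linarith [q1.1])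
    linarith
  · exact h
  · exfalso
    have a1 := H.smono (x + ρ') (x + ρ) (by linarith [q2.1]) (by linarith) q1.2.2.1
    have a2 := H.mono (x := x - ρ) (y := x - ρ') q1.2.1 (by linarith) (by linarith [q2.1])
    linarith

/-! ### Marginals with better constants -/

lemma kB_left {R : ℝ → ℝ} (hR : RadF l u R) {y : ℝ} (hy : y ∈ Ioo l u) :
    ∫⁻ x in Ioo l u, kB R x y ≤ 11 := by
  have hy0 := hR.pos y hy
  calc ∫⁻ x in Ioo l u, kB R x y
      ≤ ∫⁻ x in Ioo l u, (if |y - x| < 3 * R y then ENNReal.ofReal (7 / 4 * (R y)⁻¹) else 0) := by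
        refine setLIntegral_mono' measurableSet_Ioo fun x hx => ?_
        unfold kB
        split_ifs with h1 h2 h2
        · refine ENNReal.ofReal_le_ofReal ?_
          have h3 := hR.lip y x
          rw [abs_sub_comm] at h3
          have hx0 := hR.pos x hx
          rw [inv_eq_one_div, inv_eq_one_div, mul_one_div, div_le_div_iff₀ hx0 hy0]
          linarith
        · exfalso
          apply h2
          have h3 := hR.lip x y
          rw [abs_sub_comm] at h1 h3
          linarith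
        · exact zero_le
        · exact le_rfl
    _ ≤ ENNReal.ofReal (7 / 4 * (R y)⁻¹) * ENNReal.ofReal (2 * (3 * R y)) := lint_ball _ _ _ _
    _ ≤ 11 := by
        rw [← ENNReal.ofReal_mul (by positivity)]
        have : 7 / 4 * (R y)⁻¹ * (2 * (3 * R y)) = 21 / 2 := by
          field_simp
          norm_num
        rw [this, show (11 : ℝ≥0∞) = ENNReal.ofReal 11 by norm_num]
        exact ENNReal.ofReal_le_ofReal (by norm_num)

lemma kA_right {R : ℝ → ℝ} (hR : RadF l u R) {x : ℝ} (hx : x ∈ Ioo l u) :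
    ∫⁻ y in Ioo l u, kA R x y ≤ 12 := by
  have hx0 := hR.pos x hx
  calc ∫⁻ y in Ioo l u, kA R x y
      ≤ ∫⁻ y in Ioo l u, (if |x - y| < R x then
          ENNReal.ofReal (4 * R x ^ (-(3 / 2) : ℝ) * (2 * R x) ^ (1 / 2 : ℝ)) else 0) := by
        refine setLIntegral_mono' measurableSet_Ioo fun y hy => ?_
        unfold kA
        split_ifs with h1
        · refine ENNReal.ofReal_le_ofReal ?_
          have h3 := hR.lip y x
          rw [abs_sub_comm] at h3
          have hy0 := hR.pos y hy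
          have h4 : R y ≤ 2 * R x := by linarith
          gcongr
        · exact le_rfl
    _ ≤ ENNReal.ofReal (4 * R x ^ (-(3 / 2) : ℝ) * (2 * R x) ^ (1 / 2 : ℝ)) *
          ENNReal.ofReal (2 * R x) := lint_ball _ _ _ _
    _ ≤ 12 := by
        rw [← ENNReal.ofReal_mul (by positivity), show (12 : ℝ≥0∞) = ENNReal.ofReal 12 by norm_num]
        refine ENNReal.ofReal_le_ofReal ?_
        have e3 : R x ^ (-(3 / 2) : ℝ) * (R x ^ (1 / 2 : ℝ) * R x) = 1 := by
          rw [← Real.rpow_add_one hx0.ne', ← Real.rpow_add hx0]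
          norm_num
        have e4 : (2 : ℝ) ^ (1 / 2 : ℝ) ≤ 1.415 := by
          rw [← Real.sqrt_eq_rpow]
          exact Real.sqrt_le_iff.mpr ⟨by norm_num, by norm_num⟩
        calc 4 * R x ^ (-(3 / 2) : ℝ) * (2 * R x) ^ (1 / 2 : ℝ) * (2 * R x)
            = 8 * (2 : ℝ) ^ (1 / 2 : ℝ) * (R x ^ (-(3 / 2) : ℝ) * (R x ^ (1 / 2 : ℝ) * R x)) := by
              rw [Real.mul_rpow (by norm_num) hx0.le]; ring
          _ ≤ 12 := by rw [e3]; linarith

/-! ### The flat average -/

lemma ofReal_int_le {μ : Measure ℝ} {g : ℝ → ℝ} (hg : ∀ᵐ x ∂μ, 0 ≤ g x) :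
    ENNReal.ofReal (∫ x, g x ∂μ) ≤ ∫⁻ x, ENNReal.ofReal (g x) ∂μ := by
  by_cases h : Integrable g μ
  · rw [ofReal_integral_eq_lintegral_ofReal h hg]
  · rw [integral_undef h, ENNReal.ofReal_zero]
    exact zero_le

lemma ball_sub {R : ℝ → ℝ} (hR : RadF l u R) (hx : x ∈ Ioo l u) :
    Ioo (x - 3 / 4 * R x) (x + 3 / 4 * R x) ⊆ Ioo l u := by
  have h1 := hR.pos x hx
  have h2 := hR.left x hx
  have h3 := hR.right x hx
  exact Ioo_subset_Ioo (by linarith) (by linarith)

lemma fa_le {R : ℝ → ℝ} (hR : RadF l u R) {g : ℝ → ℝ} (hg : ∀ x, 0 ≤ g x) (hx : x ∈ Ioo l u) :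
    ENNReal.ofReal (H79.GT.fa R g x) ≤
      ∫⁻ y in Ioo l u, kB R x y * ENNReal.ofReal (g y) := by
  have h1 := hR.pos x hx
  unfold H79.GT.fa
  rw [ENNReal.ofReal_mul (by positivity)]
  calc ENNReal.ofReal (R x)⁻¹ *
        ENNReal.ofReal (∫ y in Ioo (x - 3 / 4 * R x) (x + 3 / 4 * R x), g y)
      ≤ ENNReal.ofReal (R x)⁻¹ *
        ∫⁻ y in Ioo (x - 3 / 4 * R x) (x + 3 / 4 * R x), ENNReal.ofReal (g y) :=
        mul_le_mul_right (ofReal_int_le (Filter.Eventually.of_forall hg)) _
    _ = ∫⁻ y in Ioo (x - 3 / 4 * R x) (x + 3 / 4 * R x), kB R x y * ENNReal.ofReal (g y) := by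
        rw [← lintegral_const_mul' _ _ ENNReal.ofReal_ne_top]
        refine setLIntegral_congr_fun measurableSet_Ioo fun y hy => ?_
        have hd : |x - y| < 3 / 4 * R x := by
          rw [abs_lt]
          exact ⟨by linarith [hy.2], by linarith [hy.1]⟩
        show _ = kB R x y * ENNReal.ofReal (g y)
        unfold kB
        rw [if_pos hd]
    _ ≤ _ := lintegral_mono_set (ball_sub hR hx)

lemma fa_meas {R : ℝ → ℝ} (hR : Continuous R) {Φ : ℝ → ℝ → ℝ}
    (hΦ : Measurable (Function.uncurry Φ)) :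
    Measurable fun x => H79.GT.fa R (Φ x) x := by
  have e : ∀ x, H79.GT.fa R (Φ x) x =
      (R x)⁻¹ * ∫ y, (if x - 3 / 4 * R x < y ∧ y < x + 3 / 4 * R x then Φ x y else 0) := by
    intro x
    unfold H79.GT.fa
    rw [← integral_indicator measurableSet_Ioo]
    congr 1
    refine integral_congr_ae (Filter.Eventually.of_forall fun y => ?_)
    by_cases hy : x - 3 / 4 * R x < y ∧ y < x + 3 / 4 * R x
    · simp only [hy, and_self, if_true]
      exact indicator_of_mem (show y ∈ Ioo _ _ from hy) _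
    · simp only [hy, if_false]
      exact indicator_of_notMem (show y ∉ Ioo _ _ from hy) _
  simp_rw [e]
  have hRm := hR.measurable
  have hm : Measurable (Function.uncurry fun x y =>
      (if x - 3 / 4 * R x < y ∧ y < x + 3 / 4 * R x then Φ x y else 0)) := by
    unfold Function.uncurry
    refine Measurable.ite ?_ hΦ measurable_const
    have m1 : Measurable fun a : ℝ × ℝ => a.1 - 3 / 4 * R a.1 := by fun_prop
    have m2 : Measurable fun a : ℝ × ℝ => a.1 + 3 / 4 * R a.1 := by fun_prop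
    exact (measurableSet_lt m1 measurable_snd).inter (measurableSet_lt measurable_snd m2)
  exact hRm.inv.mul (hm.stronglyMeasurable.integral_prod_right).measurable

/-- From the double integral to the Bochner integral. -/
lemma fa_int {R : ℝ → ℝ} (hR : RadF l u R) {Φ : ℝ → ℝ → ℝ}
    (hΦ : Measurable (Function.uncurry Φ)) (h0 : ∀ x y, 0 ≤ Φ x y) {b : ℝ} (hb : 0 ≤ b)
    (h : ∫⁻ x in Ioo l u, ∫⁻ y in Ioo l u, kB R x y * ENNReal.ofReal (Φ x y) ≤
      ENNReal.ofReal b) :
    IntegrableOn (fun x => H79.GT.fa R (Φ x) x) (Ioo l u) ∧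
      ∫ x in Ioo l u, H79.GT.fa R (Φ x) x ≤ b := by
  have hm := fa_meas hR.cont hΦ
  have hn : ∀ x ∈ Ioo l u, 0 ≤ H79.GT.fa R (Φ x) x := by
    intro x hx
    unfold H79.GT.fa
    exact mul_nonneg (inv_nonneg.mpr (hR.pos x hx).le)
      (integral_nonneg fun y => h0 x y)
  have h1 : ∫⁻ x in Ioo l u, ENNReal.ofReal (H79.GT.fa R (Φ x) x) ≤ ENNReal.ofReal b :=
    (setLIntegral_mono' measurableSet_Ioo fun x hx => fa_le hR (h0 x) hx).trans h
  have hn' : ∀ᵐ x ∂(volume.restrict (Ioo l u)), 0 ≤ H79.GT.fa R (Φ x) x :=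
    (ae_restrict_mem measurableSet_Ioo).mono hn
  have hi : IntegrableOn (fun x => H79.GT.fa R (Φ x) x) (Ioo l u) := by
    refine ⟨hm.aestronglyMeasurable, ?_⟩
    rw [hasFiniteIntegral_iff_ofReal hn']
    exact h1.trans_lt ENNReal.ofReal_lt_top
  refine ⟨hi, ?_⟩
  rw [← ENNReal.ofReal_le_ofReal_iff hb, ofReal_integral_eq_lintegral_ofReal hi hn']
  exact h1

theorem AV1 : H79.GT.T_AV1 := by
  intro f p l u hD r hr φ hφ0 hφ
  have H := dat_of hD
  have hR := H.radF hr
  show IntegrableOn (H79.GT.fa (rad l u p r) φ) (Ioo l u) ∧ _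
  obtain ⟨ψ, hψm, hψe, hψ0⟩ : ∃ ψ : ℝ → ℝ, Measurable ψ ∧
      φ =ᵐ[volume.restrict (Ioo l u)] ψ ∧ ∀ x, 0 ≤ ψ x := by
    refine ⟨fun x => |hφ.1.mk φ x|, hφ.1.stronglyMeasurable_mk.measurable.abs, ?_,
      fun x => abs_nonneg _⟩
    filter_upwards [hφ.1.ae_eq_mk] with x hx
    rw [← hx, abs_of_nonneg (hφ0 x)]
  have e : ∀ x ∈ Ioo l u, H79.GT.fa (rad l u p r) φ x = H79.GT.fa (rad l u p r) ψ x := by
    intro x hx
    unfold H79.GT.fa
    congr 1
    exact integral_congr_ae (ae_restrict_of_ae_restrict_of_subset (ball_sub hR hx) hψe)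
  have hψi : IntegrableOn ψ (Ioo l u) := hφ.congr hψe
  have h1 : ∫ x in Ioo l u, φ x = ∫ x in Ioo l u, ψ x := integral_congr_ae hψe
  have hK : Ker l u 34 (max (u - l) 0) (kB (rad l u p r)) := kB_ker hR fun x hx =>
    (hR.right x hx).trans ((by linarith [hx.1] : u - x ≤ u - l).trans (le_max_left _ _))
  have h2 : ∫⁻ x in Ioo l u, ∫⁻ y in Ioo l u, kB (rad l u p r) x y * ENNReal.ofReal (ψ y) ≤
      ENNReal.ofReal (11 * ∫ x in Ioo l u, ψ x) := by
    have h3 := hK.swap (g := fun _ => 1) (w := fun y => ENNReal.ofReal (ψ y)) measurable_const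
      hψm.ennreal_ofReal
    simp only [one_mul, mul_one] at h3
    rw [h3, ENNReal.ofReal_mul (by norm_num),
      ofReal_integral_eq_lintegral_ofReal hψi (Filter.Eventually.of_forall hψ0),
      ← lintegral_const_mul _ hψm.ennreal_ofReal]
    refine setLIntegral_mono' measurableSet_Ioo fun y hy => ?_
    rw [mul_comm, show ENNReal.ofReal 11 = (11 : ℝ≥0∞) by norm_num]
    exact mul_le_mul_left (kB_left hR hy) _
  obtain ⟨h4, h5⟩ := fa_int hR (Φ := fun _ y => ψ y) (hψm.comp measurable_snd) (fun _ y => hψ0 y)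
    (mul_nonneg (by norm_num) (integral_nonneg hψ0)) h2
  constructor
  · exact (integrableOn_congr_fun e measurableSet_Ioo).mpr h4
  · rw [h1]
    refine le_trans (le_of_eq ?_) h5
    exact setIntegral_congr_fun measurableSet_Ioo e

theorem CV1 : H79.GT.T_CV1 := by
  intro f p l u hD φ hφm hφ δ hδ
  have H := dat_of hD
  obtain ⟨δ0, hδ0, h⟩ := osc1 (l := l) (u := u) 34 (by simp) hφm hφ
    (ε := ENNReal.ofReal δ) (by simpa using hδ)
  obtain ⟨r0, hr0, hs⟩ := H.rad_small hδ0
  refine ⟨r0, hr0, fun r hr hrr => ?_⟩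
  have hR := H.radF hr
  have hK : Ker l u 34 δ0 (kB (rad l u p r)) := kB_ker hR fun x _ => hs r hr.le hrr x
  refine fa_int hR (Φ := fun x y => ‖φ y - φ x‖) ?_ (fun x y => norm_nonneg _) hδ.le ?_
  · exact ((hφm.comp measurable_snd).sub (hφm.comp measurable_fst)).norm
  · refine le_trans (le_of_eq ?_) (h _ hK)
    simp_rw [ofReal_norm]

theorem WK : H79.GT.T_WK := by
  intro f p l u hD h hm h0 hi δ hδ
  have H := dat_of hD
  obtain ⟨δ0, hδ0, hk⟩ := kernel_conv_pt (l := l) (u := u) 34 (by simp) hm hi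
    (ε := ENNReal.ofReal δ) (by simpa using hδ)
  obtain ⟨r0, hr0, hs⟩ := H.rad_small hδ0
  refine ⟨r0, hr0, fun r hr hrr E hE => ?_⟩
  have hR := H.radF hr
  have hK : Ker l u 34 δ0 (kB (rad l u p r)) := kB_ker hR fun x _ => hs r hr.le hrr x
  obtain ⟨e, hem, he, hpt⟩ := hk _ hK.symm
  have hEm : Measurable (E.indicator (1 : ℝ → ℝ)) := measurable_one.indicator hE
  have hE0 : ∀ y, 0 ≤ E.indicator (1 : ℝ → ℝ) y := fun y =>
    indicator_nonneg (fun _ _ => zero_le_one) y
  have hEE : ∀ y, ENNReal.ofReal (E.indicator (1 : ℝ → ℝ) y) = E.indicator (1 : ℝ → ℝ≥0∞) y := by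
    intro y
    by_cases hy : y ∈ E
    · simp [indicator_of_mem hy]
    · simp [indicator_of_notMem hy]
  have e1 : (fun x => h x * H79.GT.fa (rad l u p r) (E.indicator 1) x) =
      fun x => H79.GT.fa (rad l u p r) (fun y => h x * E.indicator 1 y) x := by
    ext x
    unfold H79.GT.fa
    rw [integral_const_mul]
    ring
  have hh' : Measurable fun x => ENNReal.ofReal (h x) := hm.ennreal_ofReal
  have h2 : ∫⁻ x in Ioo l u, ∫⁻ y in Ioo l u, kB (rad l u p r) x y *
      ENNReal.ofReal (h x * E.indicator 1 y) ≤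
        ENNReal.ofReal (11 * (∫ x in Ioo l u ∩ E, h x) + δ) := by
    have h3 := hK.swap (g := fun x => ENNReal.ofReal (h x))
      (w := fun y => ENNReal.ofReal (E.indicator (1 : ℝ → ℝ) y)) hh' hEm.ennreal_ofReal
    calc ∫⁻ x in Ioo l u, ∫⁻ y in Ioo l u, kB (rad l u p r) x y *
          ENNReal.ofReal (h x * E.indicator 1 y)
        = ∫⁻ x in Ioo l u, ENNReal.ofReal (h x) * ∫⁻ y in Ioo l u, kB (rad l u p r) x y *
          ENNReal.ofReal (E.indicator 1 y) := by
          refine lintegral_congr fun x => ?_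
          rw [← lintegral_const_mul' _ _ ENNReal.ofReal_ne_top]
          refine lintegral_congr fun y => ?_
          rw [ENNReal.ofReal_mul (h0 x)]
          ring
      _ = ∫⁻ y in Ioo l u, ENNReal.ofReal (E.indicator 1 y) *
          ∫⁻ x in Ioo l u, kB (rad l u p r) x y * ENNReal.ofReal (h x) := h3
      _ ≤ ∫⁻ y in Ioo l u, (11 * (E.indicator (1 : ℝ → ℝ≥0∞) y * ENNReal.ofReal (h y)) + e y) := by
          refine setLIntegral_mono' measurableSet_Ioo fun y hy => ?_
          have h4 := hpt 11 (by norm_num) (fun x hx => kB_left hR hx) y hy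
          rw [hEE]
          calc E.indicator (1 : ℝ → ℝ≥0∞) y *
                ∫⁻ x in Ioo l u, kB (rad l u p r) x y * ENNReal.ofReal (h x)
              ≤ E.indicator (1 : ℝ → ℝ≥0∞) y * (11 * ENNReal.ofReal (h y) + e y) :=
                mul_le_mul_right h4 _
            _ = 11 * (E.indicator (1 : ℝ → ℝ≥0∞) y * ENNReal.ofReal (h y)) +
                  E.indicator (1 : ℝ → ℝ≥0∞) y * e y := by ring
            _ ≤ _ := by
                refine add_le_add le_rfl ?_
                by_cases hy : y ∈ E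
                · simp [indicator_of_mem hy]
                · simp [indicator_of_notMem hy]
      _ = 11 * (∫⁻ y in Ioo l u, E.indicator (1 : ℝ → ℝ≥0∞) y * ENNReal.ofReal (h y)) +
            ∫⁻ y in Ioo l u, e y := by
          have hmE : Measurable (E.indicator (1 : ℝ → ℝ≥0∞)) := measurable_one.indicator hE
          rw [lintegral_add_left (by fun_prop), lintegral_const_mul _ (by fun_prop)]
      _ ≤ 11 * (∫⁻ y in Ioo l u ∩ E, ENNReal.ofReal (h y)) + ENNReal.ofReal δ := by
          refine add_le_add (mul_le_mul_right (le_of_eq ?_) _) he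
          rw [inter_comm, ← Measure.restrict_restrict hE, ← lintegral_indicator hE]
          refine lintegral_congr fun y => ?_
          by_cases hy : y ∈ E
          · simp [indicator_of_mem hy]
          · simp [indicator_of_notMem hy]
      _ = _ := by
          rw [ENNReal.ofReal_add (mul_nonneg (by norm_num) (integral_nonneg h0)) hδ.le,
            ENNReal.ofReal_mul (by norm_num), ofReal_integral_eq_lintegral_ofReal
              (hi.mono_set inter_subset_left) (Filter.Eventually.of_forall h0)]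
          norm_num
  show IntegrableOn (fun x => h x * H79.GT.fa (rad l u p r) (E.indicator 1) x) (Ioo l u) ∧
    ∫ x in Ioo l u, h x * H79.GT.fa (rad l u p r) (E.indicator 1) x ≤ _
  have hfin := fa_int hR (Φ := fun x y => h x * E.indicator 1 y)
    ((hm.comp measurable_fst).mul (hEm.comp measurable_snd))
    (fun x y => mul_nonneg (h0 x) (hE0 y))
    (add_nonneg (mul_nonneg (by norm_num) (integral_nonneg h0)) hδ.le) h2
  rw [← e1] at hfin
  exact hfin

end Pool.Agent.H7.GT
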