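import Pool.Agent.H7.GT.Ker

/-!
# The kernels of the averages and of the inverse radius
-/

set_option autoImplicit false

namespace Pool.Agent.H7.GT

open MeasureTheory Set ENNReal

variable {l u : ℝ} {f p : ℝ → ℝ} {r r' x y : ℝ}

/-- A radius function: 1-Lipschitz, positive inside the interval, at most the distance to the ends. -/
structure RadF (l u : ℝ) (R : ℝ → ℝ) : Prop where
  lip : ∀ x y, R x ≤ R y + |x - y|
  pos : ∀ x ∈ Ioo l u, 0 < R x
  left : ∀ x ∈ Ioo l u, R x ≤ x - l
  right : ∀ x ∈ Ioo l u, R x ≤ u - x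

lemma Dat.radF (H : Dat l u f p) (hr : 0 < r) : RadF l u (rad l u p r) :=
  ⟨H.rad_lip, fun _ hx => H.rad_pos hr hx, fun _ hx => rad_le_left hx.1.le,
    fun _ hx => rad_le_right hx.2.le⟩

lemma RadF.cont {R : ℝ → ℝ} (hR : RadF l u R) : Continuous R := by
  have : LipschitzWith 1 R := LipschitzWith.of_dist_le_mul fun x y => by
    rw [Real.dist_eq, Real.dist_eq, NNReal.coe_one, one_mul, abs_le]
    have h1 := hR.lip x y
    have h2 := hR.lip y x
    rw [abs_sub_comm] at h2
    constructor <;> linarith
  exact this.continuous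

/-- The kernel of the average. -/
noncomputable def kB (R : ℝ → ℝ) (x y : ℝ) : ℝ≥0∞ :=
  if |x - y| < 3 / 4 * R x then ENNReal.ofReal (R x)⁻¹ else 0

/-- The kernel of the inverse radius. -/
noncomputable def kA (R : ℝ → ℝ) (x y : ℝ) : ℝ≥0∞ :=
  if |x - y| < R x then ENNReal.ofReal (4 * (R x) ^ (-(3 / 2) : ℝ) * (R y) ^ (1 / 2 : ℝ)) else 0

lemma vol_ball (x a : ℝ) : volume {y | |x - y| < a} = ENNReal.ofReal (2 * a) := by
  have : {y | |x - y| < a} = Metric.ball x a := by
    ext y
    rw [Metric.mem_ball, Real.dist_eq, abs_sub_comm, mem_ofPred_eq]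
  rw [this, Real.volume_ball]

lemma lint_ball (a : ℝ) (b : ℝ≥0∞) (x : ℝ) (s : Set ℝ) :
    ∫⁻ y in s, (if |x - y| < a then b else 0) ≤ b * ENNReal.ofReal (2 * a) := by
  refine (setLIntegral_le_lintegral s _).trans ?_
  have h1 : (fun y => if |x - y| < a then b else 0) =
      indicator {y | |x - y| < a} (fun _ => b) := by
    ext y
    simp only [indicator, mem_ofPred_eq]
  have hm : MeasurableSet {y : ℝ | |x - y| < a} := by
    exact measurableSet_lt (by fun_prop) measurable_const
  rw [h1, lintegral_indicator hm, setLIntegral_const, vol_ball]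

lemma kB_ker {R : ℝ → ℝ} (hR : RadF l u R) {δ : ℝ} (hδ : ∀ x ∈ Ioo l u, R x ≤ δ) :
    Ker l u 34 δ (kB R) := by
  refine ⟨?_, ?_, ?_, ?_⟩
  · unfold Function.uncurry kB
    have hc := hR.cont.measurable
    refine Measurable.ite (measurableSet_lt (by fun_prop) (by fun_prop)) (by fun_prop)
      measurable_const
  · intro y hy
    have hy0 := hR.pos y hy
    calc ∫⁻ x in Ioo l u, kB R x y
        ≤ ∫⁻ x in Ioo l u, (if |y - x| < 3 * R y then ENNReal.ofReal (7 / 4 * (R y)⁻¹) else 0) := by
          refine setLIntegral_mono' measurableSet_Ioo fun x hx => ?_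
          unfold kB
          split_ifs with h1 h2 h2
          · refine ENNReal.ofReal_le_ofReal ?_
            have h3 := hR.lip y x
            rw [abs_sub_comm] at h3
            have hx0 := hR.pos x hx
            rw [inv_eq_one_div, inv_eq_one_div, mul_one_div, div_le_div_iff₀ hx0 hy0]
            linarith
          · exfalso
            apply h2
            have h3 := hR.lip x y
            rw [abs_sub_comm] at h1 h3
            linarith
          · exact zero_le
          · exact le_rfl
      _ ≤ ENNReal.ofReal (7 / 4 * (R y)⁻¹) * ENNReal.ofReal (2 * (3 * R y)) := lint_ball _ _ _ _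
      _ ≤ 34 := by
          rw [← ENNReal.ofReal_mul (by positivity)]
          have : 7 / 4 * (R y)⁻¹ * (2 * (3 * R y)) = 21 / 2 := by
            field_simp
            norm_num
          rw [this, show (34 : ℝ≥0∞) = ENNReal.ofReal 34 by norm_num]
          exact ENNReal.ofReal_le_ofReal (by norm_num)
  · intro x hx
    have hx0 := hR.pos x hx
    calc ∫⁻ y in Ioo l u, kB R x y
        ≤ ENNReal.ofReal (R x)⁻¹ * ENNReal.ofReal (2 * (3 / 4 * R x)) := lint_ball _ _ _ _
      _ ≤ 34 := by
          rw [← ENNReal.ofReal_mul (by positivity)]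
          have : (R x)⁻¹ * (2 * (3 / 4 * R x)) = 3 / 2 := by
            field_simp
            norm_num
          rw [this, show (34 : ℝ≥0∞) = ENNReal.ofReal 34 by norm_num]
          exact ENNReal.ofReal_le_ofReal (by norm_num)
  · intro x hx y hy h
    unfold kB at h
    split_ifs at h with h1
    · linarith [hδ x hx, hR.pos x hx]
    · exact absurd rfl h

/-- The tail integral. -/
lemma lint_tail {a : ℝ} (ha : 0 < a) (y : ℝ) :
    ∫⁻ x, (if a ≤ |y - x| then ENNReal.ofReal (|y - x| ^ (-(3 / 2) : ℝ)) else 0) ≤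
      ENNReal.ofReal (4 * a ^ (-(1 / 2) : ℝ)) := by
  have h0 : ∫⁻ t in Ioi a, ENNReal.ofReal (t ^ (-(3 / 2) : ℝ)) =
      ENNReal.ofReal (2 * a ^ (-(1 / 2) : ℝ)) := by
    rw [← ofReal_integral_eq_lintegral_ofReal (integrableOn_Ioi_rpow_of_lt (by norm_num) ha)
      ((ae_restrict_mem measurableSet_Ioi).mono fun t ht =>
        Real.rpow_nonneg (ha.trans (mem_Ioi.mp ht)).le _)]
    congr 1
    rw [integral_Ioi_rpow_of_lt (by norm_num) ha]
    norm_num
    ring
  set F : ℝ → ℝ≥0∞ := fun t => indicator (Ici a) (fun t => ENNReal.ofReal (t ^ (-(3 / 2) : ℝ))) t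
    with hF
  have hFm : Measurable F :=
    (Measurable.ennreal_ofReal (by fun_prop)).indicator measurableSet_Ici
  have h1 : ∫⁻ t, F t = ENNReal.ofReal (2 * a ^ (-(1 / 2) : ℝ)) := by
    rw [hF, lintegral_indicator measurableSet_Ici, ← h0, restrict_Ioi_eq_restrict_Ici]
  calc ∫⁻ x, (if a ≤ |y - x| then ENNReal.ofReal (|y - x| ^ (-(3 / 2) : ℝ)) else 0)
      ≤ ∫⁻ x, (F (y - x) + F (x - y)) := by
        refine lintegral_mono fun x => ?_
        show (if a ≤ |y - x| then ENNReal.ofReal (|y - x| ^ (-(3 / 2) : ℝ)) else 0) ≤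
          F (y - x) + F (x - y)
        split_ifs with h2
        · rcases abs_cases (y - x) with ⟨h3, -⟩ | ⟨h3, -⟩
          · rw [h3] at h2 ⊢
            have : F (y - x) = ENNReal.ofReal ((y - x) ^ (-(3 / 2) : ℝ)) := by
              rw [hF]; exact indicator_of_mem (mem_Ici.mpr h2) _
            rw [this]
            exact le_self_add
          · rw [h3, neg_sub] at h2 ⊢
            have : F (x - y) = ENNReal.ofReal ((x - y) ^ (-(3 / 2) : ℝ)) := by
              rw [hF]; exact indicator_of_mem (mem_Ici.mpr h2) _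
            rw [this]
            exact le_add_self
        · exact zero_le
    _ = ENNReal.ofReal (4 * a ^ (-(1 / 2) : ℝ)) := by
        rw [lintegral_add_left (by fun_prop), lintegral_sub_left_eq_self F y,
          lintegral_sub_right_eq_self F y, h1, ← ENNReal.ofReal_add (by positivity) (by positivity)]
        congr 1
        ring

lemma kA_ker {R : ℝ → ℝ} (hR : RadF l u R) {δ : ℝ} (hδ : ∀ x ∈ Ioo l u, R x ≤ δ) :
    Ker l u 34 δ (kA R) := by
  have hc := hR.cont.measurable
  refine ⟨?_, ?_, ?_, ?_⟩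
  · unfold Function.uncurry kA
    refine Measurable.ite (measurableSet_lt (by fun_prop) (by fun_prop)) (by fun_prop)
      measurable_const
  · intro y hy
    have hy0 := hR.pos y hy
    set a := R y / 2 with ha
    have ha0 : 0 < a := by positivity
    set b := 4 * (R y) ^ (1 / 2 : ℝ) with hb
    have hb0 : 0 ≤ b := by positivity
    have hmb : Measurable fun x : ℝ => ENNReal.ofReal b *
        (if |y - x| < a then ENNReal.ofReal (a ^ (-(3 / 2) : ℝ)) else 0) :=
      (Measurable.ite (measurableSet_lt (by fun_prop) (by fun_prop)) (by fun_prop)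
        measurable_const).const_mul _
    calc ∫⁻ x in Ioo l u, kA R x y
        ≤ ∫⁻ x in Ioo l u, (ENNReal.ofReal b *
              (if |y - x| < a then ENNReal.ofReal (a ^ (-(3 / 2) : ℝ)) else 0) +
            ENNReal.ofReal b *
              (if a ≤ |y - x| then ENNReal.ofReal (|y - x| ^ (-(3 / 2) : ℝ)) else 0)) := by
          refine setLIntegral_mono' measurableSet_Ioo fun x hx => ?_
          have hx0 := hR.pos x hx
          have h3 := hR.lip y x
          unfold kA
          split_ifs with h1 h2 h4 h4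
          · exfalso; linarith
          · rw [mul_zero, add_zero, ← ENNReal.ofReal_mul hb0]
            refine ENNReal.ofReal_le_ofReal ?_
            have h5 : R x ^ (-(3 / 2) : ℝ) ≤ a ^ (-(3 / 2) : ℝ) :=
              Real.rpow_le_rpow_of_nonpos ha0 (by linarith) (by norm_num)
            calc 4 * R x ^ (-(3 / 2) : ℝ) * R y ^ (1 / 2 : ℝ) = b * R x ^ (-(3 / 2) : ℝ) := by
                  rw [hb]; ring
              _ ≤ b * a ^ (-(3 / 2) : ℝ) := by gcongr
          · rw [mul_zero, zero_add, ← ENNReal.ofReal_mul hb0]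
            refine ENNReal.ofReal_le_ofReal ?_
            rw [abs_sub_comm] at h1
            have h5 : R x ^ (-(3 / 2) : ℝ) ≤ |y - x| ^ (-(3 / 2) : ℝ) :=
              Real.rpow_le_rpow_of_nonpos (by linarith) h1.le (by norm_num)
            calc 4 * R x ^ (-(3 / 2) : ℝ) * R y ^ (1 / 2 : ℝ) = b * R x ^ (-(3 / 2) : ℝ) := by
                  rw [hb]; ring
              _ ≤ b * |y - x| ^ (-(3 / 2) : ℝ) := by gcongr
          · exfalso; linarith
          · exact zero_le
          · exact zero_le
          · exact zero_le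
          · exact zero_le
      _ = ENNReal.ofReal b * (∫⁻ x in Ioo l u,
              (if |y - x| < a then ENNReal.ofReal (a ^ (-(3 / 2) : ℝ)) else 0)) +
            ENNReal.ofReal b * ∫⁻ x in Ioo l u,
              (if a ≤ |y - x| then ENNReal.ofReal (|y - x| ^ (-(3 / 2) : ℝ)) else 0) := by
          rw [lintegral_add_left hmb, lintegral_const_mul' _ _ ENNReal.ofReal_ne_top,
            lintegral_const_mul' _ _ ENNReal.ofReal_ne_top]
      _ ≤ ENNReal.ofReal b * (ENNReal.ofReal (a ^ (-(3 / 2) : ℝ)) * ENNReal.ofReal (2 * a)) +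
            ENNReal.ofReal b * ENNReal.ofReal (4 * a ^ (-(1 / 2) : ℝ)) := by
          refine add_le_add (mul_le_mul_right (lint_ball _ _ _ _) _)
            (mul_le_mul_right ?_ _)
          exact (setLIntegral_le_lintegral _ _).trans (lint_tail ha0 y)
      _ ≤ 34 := by
          rw [← ENNReal.ofReal_mul (by positivity), ← ENNReal.ofReal_mul hb0,
            ← ENNReal.ofReal_mul hb0, ← ENNReal.ofReal_add (by positivity) (by positivity),
            show (34 : ℝ≥0∞) = ENNReal.ofReal 34 by norm_num]
          refine ENNReal.ofReal_le_ofReal ?_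
          have e1 : a ^ (-(3 / 2) : ℝ) * (2 * a) = 2 * a ^ (-(1 / 2) : ℝ) := by
            rw [show (-(1 / 2) : ℝ) = -(3 / 2) + 1 by norm_num, Real.rpow_add_one ha0.ne']
            ring
          have e2 : R y = 2 * a := by rw [ha]; ring
          have e3 : (R y) ^ (1 / 2 : ℝ) * a ^ (-(1 / 2) : ℝ) = 2 ^ (1 / 2 : ℝ) := by
            rw [e2, Real.mul_rpow (by norm_num) ha0.le, mul_assoc, ← Real.rpow_add ha0]
            norm_num
          have e4 : (2 : ℝ) ^ (1 / 2 : ℝ) ≤ 1.415 := by
            rw [← Real.sqrt_eq_rpow]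
            exact Real.sqrt_le_iff.mpr ⟨by norm_num, by norm_num⟩
          calc b * (a ^ (-(3 / 2) : ℝ) * (2 * a)) + b * (4 * a ^ (-(1 / 2) : ℝ))
              = 24 * ((R y) ^ (1 / 2 : ℝ) * a ^ (-(1 / 2) : ℝ)) := by
                rw [e1, hb]; ring
            _ ≤ 34 := by rw [e3]; linarith
  · intro x hx
    have hx0 := hR.pos x hx
    calc ∫⁻ y in Ioo l u, kA R x y
        ≤ ∫⁻ y in Ioo l u, (if |x - y| < R x then
            ENNReal.ofReal (4 * R x ^ (-(3 / 2) : ℝ) * (2 * R x) ^ (1 / 2 : ℝ)) else 0) := by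
          refine setLIntegral_mono' measurableSet_Ioo fun y hy => ?_
          unfold kA
          split_ifs with h1
          · refine ENNReal.ofReal_le_ofReal ?_
            have h3 := hR.lip y x
            rw [abs_sub_comm] at h3
            have hy0 := hR.pos y hy
            have h4 : R y ≤ 2 * R x := by linarith
            gcongr
          · exact le_rfl
      _ ≤ ENNReal.ofReal (4 * R x ^ (-(3 / 2) : ℝ) * (2 * R x) ^ (1 / 2 : ℝ)) *
            ENNReal.ofReal (2 * R x) := lint_ball _ _ _ _
      _ ≤ 34 := by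
          rw [← ENNReal.ofReal_mul (by positivity), show (34 : ℝ≥0∞) = ENNReal.ofReal 34 by norm_num]
          refine ENNReal.ofReal_le_ofReal ?_
          have e3 : R x ^ (-(3 / 2) : ℝ) * (R x ^ (1 / 2 : ℝ) * R x) = 1 := by
            rw [← Real.rpow_add_one hx0.ne', ← Real.rpow_add hx0]
            norm_num
          have e4 : (2 : ℝ) ^ (1 / 2 : ℝ) ≤ 1.415 := by
            rw [← Real.sqrt_eq_rpow]
            exact Real.sqrt_le_iff.mpr ⟨by norm_num, by norm_num⟩
          calc 4 * R x ^ (-(3 / 2) : ℝ) * (2 * R x) ^ (1 / 2 : ℝ) * (2 * R x)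
              = 8 * (2 : ℝ) ^ (1 / 2 : ℝ) * (R x ^ (-(3 / 2) : ℝ) * (R x ^ (1 / 2 : ℝ) * R x)) := by
                rw [Real.mul_rpow (by norm_num) hx0.le]; ring
            _ ≤ 34 := by rw [e3]; linarith
  · intro x hx y hy h
    unfold kA at h
    split_ifs at h with h1
    · linarith [hδ x hx, hR.pos x hx]
    · exact absurd rfl h

end Pool.Agent.H7.GT
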