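import Mathlib

/-!
# Averages of variable radius on an interval: definitions

`f` is a square integrable density on `[l, u]`, `p` its distribution function. The mass radius
`rad l u p r x` is the largest radius of a ball around `x` in `[l, u]` of mass at most `r`.
-/

set_option autoImplicit false

namespace Pool.Agent.H7.GT

open MeasureTheory Set

/-- A strictly increasing distribution function `p` with the square integrable density `f`. -/
structure Dat (l u : ℝ) (f p : ℝ → ℝ) : Prop where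
  lt : l < u
  meas : Measurable f
  nonneg : ∀ x, 0 ≤ f x
  sq : IntegrableOn (fun x => f x ^ 2) (Ioo l u)
  prim : ∀ x y, l ≤ x → x ≤ y → y ≤ u → p y - p x = ∫ z in Ioo x y, f z
  smono : ∀ x y, l ≤ x → x < y → y ≤ u → p x < p y

/-- The mass radius. -/
noncomputable def rad (l u : ℝ) (p : ℝ → ℝ) (r x : ℝ) : ℝ :=
  sSup {ρ | 0 ≤ ρ ∧ l ≤ x - ρ ∧ x + ρ ≤ u ∧ p (x + ρ) - p (x - ρ) ≤ r}

/-- The zone: the points at distance at most `r` from an end. -/
def zone (l u : ℝ) (p : ℝ → ℝ) (r : ℝ) : Set ℝ :=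
  {x | x ≤ l ∨ u ≤ x ∨ p x - p l ≤ r ∨ p u - p x ≤ r}

/-- The average over the ball of radius `R x / 2` with the tent kernel. -/
noncomputable def avg {E : Type} [NormedAddCommGroup E] [NormedSpace ℝ E] (R : ℝ → ℝ) (g : ℝ → E)
    (x : ℝ) : E :=
  ∫ s in (-(1 / 2 : ℝ))..(1 / 2), (2 - 4 * |s|) • g (x + R x * s)

/-- The integral over the ball of radius `3 R x / 4` divided by `R x`. -/
noncomputable def av (R : ℝ → ℝ) (g : ℝ → ℝ) (x : ℝ) : ℝ :=
  (R x)⁻¹ * ∫ y in Ioo (x - 3 / 4 * R x) (x + 3 / 4 * R x), g y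

end Pool.Agent.H7.GT
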