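import Pool.Agent.H7.GT.Ball

/-!
# The inverse radius is controlled by the density
-/

set_option autoImplicit false

namespace Pool.Agent.H7.GT

open MeasureTheory Set ENNReal

variable {l u : ℝ} {f p : ℝ → ℝ} {r r' x y : ℝ}

lemma lint_half {ρ : ℝ} (hρ : 0 < ρ) (x : ℝ) :
    ∫⁻ y in Ioo (x - ρ) (x + ρ), ENNReal.ofReal ((ρ - |x - y|) ^ (-(1 / 2) : ℝ)) ≤
      ENNReal.ofReal (4 * ρ ^ (1 / 2 : ℝ)) := by
  have h0 : ∫⁻ t in Ioc 0 ρ, ENNReal.ofReal (t ^ (-(1 / 2) : ℝ)) =
      ENNReal.ofReal (2 * ρ ^ (1 / 2 : ℝ)) := by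
    have hi : IntervalIntegrable (fun t : ℝ => t ^ (-(1 / 2) : ℝ)) volume 0 ρ :=
      intervalIntegral.intervalIntegrable_rpow' (by norm_num)
    rw [← ofReal_integral_eq_lintegral_ofReal
      ((intervalIntegrable_iff_integrableOn_Ioc_of_le hρ.le).mp hi)
      ((ae_restrict_mem measurableSet_Ioc).mono fun t ht => Real.rpow_nonneg ht.1.le _)]
    congr 1
    rw [← intervalIntegral.integral_of_le hρ.le, integral_rpow (Or.inl (by norm_num))]
    norm_num
    ring
  set F : ℝ → ℝ≥0∞ := fun t => indicator (Ioc 0 ρ) (fun t => ENNReal.ofReal (t ^ (-(1 / 2) : ℝ))) t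
    with hF
  have hFm : Measurable F :=
    (Measurable.ennreal_ofReal (by fun_prop)).indicator measurableSet_Ioc
  have h1 : ∫⁻ t, F t = ENNReal.ofReal (2 * ρ ^ (1 / 2 : ℝ)) := by
    rw [hF, lintegral_indicator measurableSet_Ioc, ← h0]
  calc ∫⁻ y in Ioo (x - ρ) (x + ρ), ENNReal.ofReal ((ρ - |x - y|) ^ (-(1 / 2) : ℝ))
      ≤ ∫⁻ y in Ioo (x - ρ) (x + ρ), (F (y - (x - ρ)) + F ((x + ρ) - y)) := by
        refine setLIntegral_mono' measurableSet_Ioo fun y hy => ?_
        rcases abs_cases (x - y) with ⟨h3, h4⟩ | ⟨h3, h4⟩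
        · have : F (y - (x - ρ)) = ENNReal.ofReal ((ρ - |x - y|) ^ (-(1 / 2) : ℝ)) := by
            rw [hF, h3]
            show indicator (Ioc 0 ρ) _ _ = _
            rw [indicator_of_mem (show y - (x - ρ) ∈ Ioc 0 ρ from ⟨by linarith [hy.1], by linarith⟩)]
            congr 2
            ring
          rw [← this]
          exact le_self_add
        · have : F ((x + ρ) - y) = ENNReal.ofReal ((ρ - |x - y|) ^ (-(1 / 2) : ℝ)) := by
            rw [hF, h3]
            show indicator (Ioc 0 ρ) _ _ = _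
            rw [indicator_of_mem (show x + ρ - y ∈ Ioc 0 ρ from ⟨by linarith [hy.2], by linarith⟩)]
            congr 2
            ring
          rw [← this]
          exact le_add_self
    _ ≤ ∫⁻ y, (F (y - (x - ρ)) + F ((x + ρ) - y)) := setLIntegral_le_lintegral _ _
    _ = ENNReal.ofReal (4 * ρ ^ (1 / 2 : ℝ)) := by
        rw [lintegral_add_left (by fun_prop), lintegral_sub_left_eq_self F (x + ρ),
          lintegral_sub_right_eq_self F (x - ρ), h1,
          ← ENNReal.ofReal_add (by positivity) (by positivity)]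
        congr 1
        ring

/-- The inverse radius off the zone. -/
theorem inv_rad (H : Dat l u f p) (hr : 0 < r) (hx : x ∉ zone l u p r) :
    ENNReal.ofReal ((r / rad l u p r x) ^ 2) ≤
      ∫⁻ y in Ioo l u, kA (rad l u p r) x y * ENNReal.ofReal (f y ^ 2) := by
  have hz : x ∈ Ioo l u := by
    simp only [zone, mem_ofPred_eq] at hx
    push Not at hx
    exact ⟨hx.1, hx.2.1⟩
  have hR := H.radF hr
  set R := rad l u p r with hRd
  set ρ := R x with hρd
  have hρ : 0 < ρ := hR.pos x hz
  have hl := hR.left x hz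
  have hu := hR.right x hz
  have hB : Ioo (x - ρ) (x + ρ) ⊆ Ioo l u := Ioo_subset_Ioo (by linarith) (by linarith)
  have hmass : ∫ y in Ioo (x - ρ) (x + ρ), f y = r := by
    rw [← H.prim _ _ (by linarith) (by linarith) (by linarith)]
    exact H.rad_mass hr.le hx
  have hRm := hR.cont.measurable
  set A := ∫⁻ y in Ioo (x - ρ) (x + ρ), ENNReal.ofReal (f y ^ 2 * (R y) ^ (1 / 2 : ℝ)) with hA
  set lam := 4 * ρ ^ (1 / 2 : ℝ) / r with hlam
  have hlam0 : 0 < lam := by positivity
  have hfm := H.meas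
  have h1 : ENNReal.ofReal r ≤ ENNReal.ofReal (lam / 2) * A + ENNReal.ofReal (r / 2) := by
    calc ENNReal.ofReal r = ∫⁻ y in Ioo (x - ρ) (x + ρ), ENNReal.ofReal (f y) := by
          rw [← hmass, ofReal_integral_eq_lintegral_ofReal (H.int.mono_set hB)
            (Filter.Eventually.of_forall H.nonneg)]
      _ ≤ ∫⁻ y in Ioo (x - ρ) (x + ρ), (ENNReal.ofReal (lam / 2) *
            ENNReal.ofReal (f y ^ 2 * (R y) ^ (1 / 2 : ℝ)) +
            ENNReal.ofReal ((2 * lam)⁻¹) * ENNReal.ofReal ((ρ - |x - y|) ^ (-(1 / 2) : ℝ))) := by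
          refine setLIntegral_mono' measurableSet_Ioo fun y hy => ?_
          have hd : |x - y| < ρ := by
            rw [abs_lt]
            exact ⟨by linarith [hy.2], by linarith [hy.1]⟩
          have hy0 := hR.pos y (hB hy)
          have hlow : ρ - |x - y| ≤ R y := by
            have := hR.lip x y
            linarith
          rw [← ENNReal.ofReal_mul (by positivity), ← ENNReal.ofReal_mul (by positivity),
            ← ENNReal.ofReal_add (by positivity)
              (mul_nonneg (by positivity) (Real.rpow_nonneg (by linarith) _))]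
          refine ENNReal.ofReal_le_ofReal ?_
          have h2 : (R y) ^ (-(1 / 2) : ℝ) ≤ (ρ - |x - y|) ^ (-(1 / 2) : ℝ) :=
            Real.rpow_le_rpow_of_nonpos (by linarith) hlow (by norm_num)
          have h3 : (R y) ^ (-(1 / 2) : ℝ) = ((R y) ^ (1 / 2 : ℝ))⁻¹ := Real.rpow_neg hy0.le _
          set w := (R y) ^ (1 / 2 : ℝ) with hw
          have hw0 : 0 < w := by positivity
          have h4 : f y ≤ lam / 2 * (f y ^ 2 * w) + (2 * lam)⁻¹ * w⁻¹ := by
            have h5 : 0 ≤ (lam * w * f y - 1) ^ 2 / (2 * lam * w) := by positivity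
            have h6 : (lam * w * f y - 1) ^ 2 / (2 * lam * w) =
                lam / 2 * (f y ^ 2 * w) + (2 * lam)⁻¹ * w⁻¹ - f y := by
              field_simp
              ring
            linarith
          refine h4.trans (add_le_add le_rfl ?_)
          rw [← h3]
          exact mul_le_mul_of_nonneg_left h2 (by positivity)
      _ = ENNReal.ofReal (lam / 2) * A + ENNReal.ofReal ((2 * lam)⁻¹) *
            ∫⁻ y in Ioo (x - ρ) (x + ρ), ENNReal.ofReal ((ρ - |x - y|) ^ (-(1 / 2) : ℝ)) := by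
          rw [lintegral_add_left (by fun_prop), lintegral_const_mul' _ _ ENNReal.ofReal_ne_top,
            lintegral_const_mul' _ _ ENNReal.ofReal_ne_top]
      _ ≤ ENNReal.ofReal (lam / 2) * A + ENNReal.ofReal ((2 * lam)⁻¹) *
            ENNReal.ofReal (4 * ρ ^ (1 / 2 : ℝ)) :=
          add_le_add le_rfl (mul_le_mul_right (lint_half hρ x) _)
      _ = _ := by
          rw [← ENNReal.ofReal_mul (by positivity)]
          congr 2
          rw [hlam]
          field_simp
  have h2 : ENNReal.ofReal (r / 2) ≤ ENNReal.ofReal (lam / 2) * A := by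
    have e : ENNReal.ofReal r = ENNReal.ofReal (r / 2) + ENNReal.ofReal (r / 2) := by
      rw [← ENNReal.ofReal_add (by positivity) (by positivity)]
      congr 1
      ring
    rw [e] at h1
    exact (ENNReal.add_le_add_iff_right ENNReal.ofReal_ne_top).mp h1
  have h3 : ENNReal.ofReal ((r / ρ) ^ 2) =
      ENNReal.ofReal (2 * r / (lam / 2 * (ρ ^ 2)))* ENNReal.ofReal (lam / 2) *
        ENNReal.ofReal (r / 2) := by
    rw [← ENNReal.ofReal_mul (by positivity), ← ENNReal.ofReal_mul (by positivity)]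
    congr 1
    field_simp
  have h4 : 2 * r / (lam / 2 * (ρ ^ 2)) * (lam / 2) * (lam / 2) =
      4 * ρ ^ (-(3 / 2) : ℝ) := by
    have e1 : ρ ^ (-(3 / 2) : ℝ) * ρ ^ 2 = ρ ^ (1 / 2 : ℝ) := by
      rw [← Real.rpow_natCast, ← Real.rpow_add hρ]
      norm_num
    have e2 : ρ ^ (-(3 / 2) : ℝ) = ρ ^ (1 / 2 : ℝ) / ρ ^ 2 := by
      rw [← e1]
      field_simp
    rw [e2, hlam]
    field_simp
  calc ENNReal.ofReal ((r / ρ) ^ 2)
      ≤ ENNReal.ofReal (2 * r / (lam / 2 * (ρ ^ 2)))* ENNReal.ofReal (lam / 2) *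
        (ENNReal.ofReal (lam / 2) * A) := by
        rw [h3]
        exact mul_le_mul_right h2 _
    _ = ENNReal.ofReal (4 * ρ ^ (-(3 / 2) : ℝ)) * A := by
        rw [← mul_assoc, ← ENNReal.ofReal_mul (by positivity), ← ENNReal.ofReal_mul (by positivity),
          h4]
    _ = ∫⁻ y in Ioo (x - ρ) (x + ρ), kA R x y * ENNReal.ofReal (f y ^ 2) := by
        rw [hA, ← lintegral_const_mul' _ _ ENNReal.ofReal_ne_top]
        refine setLIntegral_congr_fun measurableSet_Ioo fun y hy => ?_
        have hd : |x - y| < R x := by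
          rw [← hρd, abs_lt]
          exact ⟨by linarith [hy.2], by linarith [hy.1]⟩
        have hy0 := hR.pos y (hB hy)
        show _ = kA R x y * ENNReal.ofReal (f y ^ 2)
        unfold kA
        rw [if_pos hd, ← ENNReal.ofReal_mul (by positivity), ← ENNReal.ofReal_mul (by positivity)]
        congr 1
        ring
    _ ≤ _ := lintegral_mono_set hB

end Pool.Agent.H7.GT
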