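import Pool.Agent.H7.GT.Rad

/-!
# Kernels of small range
-/

set_option autoImplicit false

namespace Pool.Agent.H7.GT

open MeasureTheory Set ENNReal

variable {l u : ℝ} {f p : ℝ → ℝ} {r r' x y : ℝ}

/-- Kernels with marginals at most `C` and of small range. -/
structure Ker (l u : ℝ) (C : ℝ≥0∞) (δ : ℝ) (k : ℝ → ℝ → ℝ≥0∞) : Prop where
  meas : Measurable (Function.uncurry k)
  left : ∀ y ∈ Ioo l u, ∫⁻ x in Ioo l u, k x y ≤ C
  right : ∀ x ∈ Ioo l u, ∫⁻ y in Ioo l u, k x y ≤ C
  range : ∀ x ∈ Ioo l u, ∀ y ∈ Ioo l u, k x y ≠ 0 → |x - y| ≤ δ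

lemma Ker.symm {C : ℝ≥0∞} {δ : ℝ} {k : ℝ → ℝ → ℝ≥0∞} (h : Ker l u C δ k) :
    Ker l u C δ (fun x y => k y x) :=
  ⟨h.meas.comp measurable_swap, h.right, h.left, fun x hx y hy hk => by
    rw [abs_sub_comm]; exact h.range y hy x hx hk⟩

/-- Tonelli and the marginals. -/
lemma Ker.tonelli {C : ℝ≥0∞} {δ : ℝ} {k : ℝ → ℝ → ℝ≥0∞} (h : Ker l u C δ k) {g : ℝ → ℝ≥0∞}
    (hg : Measurable g) :
    ∫⁻ x in Ioo l u, ∫⁻ y in Ioo l u, k x y * g y ≤ C * ∫⁻ y in Ioo l u, g y := by
  rw [lintegral_lintegral_swap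
    ((h.meas.mul (hg.comp measurable_snd)).aemeasurable), ← lintegral_const_mul _ hg]
  refine setLIntegral_mono (hg.const_mul C) fun y hy => ?_
  have hm : Measurable fun x => k x y := h.meas.comp measurable_prodMk_right
  rw [lintegral_mul_const _ hm]
  exact mul_le_mul_left (h.left y hy) _

theorem kernel_conv (C : ℝ≥0∞) (hC : C ≠ ⊤) {g : ℝ → ℝ}
    (hgm : Measurable g) (hg : IntegrableOn g (Ioo l u))
    {ε : ℝ≥0∞} (hε : ε ≠ 0) :
    ∃ δ0 > 0, ∀ (k : ℝ → ℝ → ℝ≥0∞), Ker l u C δ0 k →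
      ∀ w : ℝ → ℝ≥0∞, Measurable w → (∀ x, w x ≤ 1) →
        ∫⁻ x in Ioo l u, w x * ∫⁻ y in Ioo l u, k x y * ENNReal.ofReal (g y) ≤
          (C * ∫⁻ x in Ioo l u, w x * ENNReal.ofReal (g x)) + ε := by
  -- the choice of `η`
  obtain ⟨η, hη0, hη⟩ : ∃ η : ℝ, 0 < η ∧
      C * ENNReal.ofReal η + C * ENNReal.ofReal η +
        C * (ENNReal.ofReal η * volume (Ioo l u)) ≤ ε := by
    have hfin : C + C + C * volume (Ioo l u) ≠ ⊤ := by
      rw [Real.volume_Ioo]
      finiteness
    obtain ⟨η, h1, h2⟩ := ENNReal.exists_pos_mul_lt hfin hε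
    rcases eq_or_ne η ⊤ with rfl | hηt
    · refine ⟨1, one_pos, ?_⟩
      simp only [ENNReal.ofReal_one, mul_one, one_mul]
      refine le_trans ?_ h2.le
      exact le_mul_of_one_le_left zero_le le_top
    · refine ⟨η.toReal, ENNReal.toReal_pos h1.ne' hηt, ?_⟩
      rw [ENNReal.ofReal_toReal hηt]
      refine le_trans (le_of_eq ?_) h2.le
      ring
  obtain ⟨gc, hc1, hc2, hc3, hc4⟩ := Integrable.exists_hasCompactSupport_lintegral_sub_le hg
    (ε := ENNReal.ofReal η) (by simpa using hη0)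
  have huc := hc1.uniformContinuous_of_continuous hc3
  obtain ⟨δ1, hδ1, hδ⟩ := Metric.uniformContinuous_iff.mp huc η hη0
  refine ⟨δ1 / 2, by linarith, fun k hk w hwm hw => ?_⟩
  set h : ℝ → ℝ≥0∞ := fun x => ‖g x - gc x‖ₑ with hh
  have hhm : Measurable h := (hgm.sub hc3.measurable).enorm
  have hgm' : Measurable fun x => ENNReal.ofReal (g x) := hgm.ennreal_ofReal
  have hpt : ∀ x ∈ Ioo l u, ∀ y ∈ Ioo l u, k x y * ENNReal.ofReal (g y) ≤
      k x y * h y + k x y * (h x + ENNReal.ofReal (g x) + ENNReal.ofReal η) := by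
    intro x hx y hy
    rcases eq_or_ne (k x y) 0 with h0 | h0
    · simp [h0]
    have hxy := hk.range x hx y hy h0
    have h1 : |gc x - gc y| < η := by
      have := hδ (a := x) (b := y) (by rw [Real.dist_eq]; linarith)
      rwa [Real.dist_eq] at this
    rw [← mul_add]
    refine mul_le_mul_right ?_ _
    have h2 : g y ≤ |g y - gc y| + (|g x - gc x| + max (g x) 0 + η) := by
      have a1 := le_abs_self (g y - gc y)
      have a2 := neg_abs_le (g x - gc x)
      have a3 := neg_abs_le (gc x - gc y)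
      have a4 := le_max_left (g x) 0
      linarith
    refine (ENNReal.ofReal_le_ofReal h2).trans (le_of_eq ?_)
    have e1 : ∀ z, h z = ENNReal.ofReal |g z - gc z| := fun z => by
      rw [hh, ← Real.norm_eq_abs, ofReal_norm]
    rw [ENNReal.ofReal_add (abs_nonneg _) (by positivity),
      ENNReal.ofReal_add (by positivity) hη0.le,
      ENNReal.ofReal_add (abs_nonneg _) (le_max_right _ _), e1, e1]
    congr 3
    rw [ENNReal.ofReal_max, ENNReal.ofReal_zero, max_eq_left zero_le]
  have hin : ∀ x ∈ Ioo l u, ∫⁻ y in Ioo l u, k x y * ENNReal.ofReal (g y) ≤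
      (∫⁻ y in Ioo l u, k x y * h y) + C * (h x + ENNReal.ofReal (g x) + ENNReal.ofReal η) := by
    intro x hx
    have hm : Measurable fun y => k x y := hk.meas.comp measurable_prodMk_left
    calc ∫⁻ y in Ioo l u, k x y * ENNReal.ofReal (g y)
        ≤ ∫⁻ y in Ioo l u, (k x y * h y + k x y * (h x + ENNReal.ofReal (g x) +
            ENNReal.ofReal η)) :=
          setLIntegral_mono ((hm.mul hhm).add (hm.mul_const _)) fun y hy => hpt x hx y hy
      _ = (∫⁻ y in Ioo l u, k x y * h y) + (∫⁻ y in Ioo l u, k x y) * (h x +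
            ENNReal.ofReal (g x) + ENNReal.ofReal η) := by
          have hmh : Measurable fun y => k x y * h y := hm.mul hhm
          rw [lintegral_add_left hmh, lintegral_mul_const _ hm]
      _ ≤ _ := add_le_add le_rfl (mul_le_mul_left (hk.right x hx) _)
  have hm1 : Measurable fun x => ∫⁻ y in Ioo l u, k x y * h y :=
    Measurable.lintegral_prod_right (hk.meas.mul (hhm.comp measurable_snd))
  have hout : ∀ x ∈ Ioo l u, w x * ∫⁻ y in Ioo l u, k x y * ENNReal.ofReal (g y) ≤
      (∫⁻ y in Ioo l u, k x y * h y) + C * h x + C * ENNReal.ofReal η +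
        C * (w x * ENNReal.ofReal (g x)) := by
    intro x hx
    calc w x * ∫⁻ y in Ioo l u, k x y * ENNReal.ofReal (g y)
        ≤ w x * ((∫⁻ y in Ioo l u, k x y * h y) + C * (h x + ENNReal.ofReal (g x) +
            ENNReal.ofReal η)) := mul_le_mul_right (hin x hx) _
      _ = w x * (∫⁻ y in Ioo l u, k x y * h y) + w x * (C * h x) +
            w x * (C * ENNReal.ofReal η) + C * (w x * ENNReal.ofReal (g x)) := by ring
      _ ≤ _ := by
          have hb : ∀ a : ℝ≥0∞, w x * a ≤ a := fun a => by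
            calc w x * a ≤ 1 * a := mul_le_mul_left (hw x) _
              _ = a := one_mul _
          exact add_le_add (add_le_add (add_le_add (hb _) (hb _)) (hb _)) le_rfl
  calc ∫⁻ x in Ioo l u, w x * ∫⁻ y in Ioo l u, k x y * ENNReal.ofReal (g y)
      ≤ ∫⁻ x in Ioo l u, ((∫⁻ y in Ioo l u, k x y * h y) + C * h x + C * ENNReal.ofReal η +
        C * (w x * ENNReal.ofReal (g x))) :=
        setLIntegral_mono (by fun_prop) hout
    _ = (∫⁻ x in Ioo l u, ∫⁻ y in Ioo l u, k x y * h y) + C * (∫⁻ x in Ioo l u, h x) +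
        C * (ENNReal.ofReal η * volume (Ioo l u)) +
          C * ∫⁻ x in Ioo l u, w x * ENNReal.ofReal (g x) := by
        rw [lintegral_add_left (by fun_prop), lintegral_add_left (by fun_prop),
          lintegral_add_left hm1, lintegral_const_mul _ hhm,
          lintegral_const_mul _ (by fun_prop), setLIntegral_const,
          lintegral_const_mul _ (by fun_prop)]
    _ ≤ C * ENNReal.ofReal η + C * ENNReal.ofReal η +
          C * (ENNReal.ofReal η * volume (Ioo l u)) +
            C * ∫⁻ x in Ioo l u, w x * ENNReal.ofReal (g x) := by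
        refine add_le_add (add_le_add (add_le_add ?_ ?_) le_rfl) le_rfl
        · exact (hk.tonelli hhm).trans (mul_le_mul_right hc2 _)
        · exact mul_le_mul_right hc2 _
    _ ≤ _ := by
        rw [add_comm]
        exact add_le_add le_rfl hη

end Pool.Agent.H7.GT
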