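import Pool.Agent.H7.GT.Inv

/-!
# Bounded weights, oscillation
-/

set_option autoImplicit false

namespace Pool.Agent.H7.GT

open MeasureTheory Set ENNReal

variable {l u : ℝ} {f p : ℝ → ℝ} {r r' x y : ℝ}

/-- `kernel_conv` with weights bounded by `B`. -/
theorem kernel_conv_bdd (C : ℝ≥0∞) (hC : C ≠ ⊤) {g : ℝ → ℝ}
    (hgm : Measurable g) (hg : IntegrableOn g (Ioo l u)) {B : ℝ≥0∞} (hB : B ≠ ⊤)
    {ε : ℝ≥0∞} (hε : ε ≠ 0) :
    ∃ δ0 > 0, ∀ (k : ℝ → ℝ → ℝ≥0∞), Ker l u C δ0 k →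
      ∀ w : ℝ → ℝ≥0∞, Measurable w → (∀ x, w x ≤ B) →
        ∫⁻ x in Ioo l u, w x * ∫⁻ y in Ioo l u, k x y * ENNReal.ofReal (g y) ≤
          (C * ∫⁻ x in Ioo l u, w x * ENNReal.ofReal (g x)) + ε := by
  rcases eq_or_ne B 0 with rfl | hB0
  · refine ⟨1, one_pos, fun k hk w hwm hw => ?_⟩
    have h0 : w = fun _ => 0 := funext fun x => le_antisymm (hw x) zero_le
    simp [h0]
  · obtain ⟨δ0, hδ0, h⟩ := kernel_conv (l := l) (u := u) C hC hgm hg (ε := ε / B)
      (ENNReal.div_ne_zero.mpr ⟨hε, hB⟩)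
    refine ⟨δ0, hδ0, fun k hk w hwm hw => ?_⟩
    have h1 := h k hk (fun x => B⁻¹ * w x) (hwm.const_mul _) (fun x => by
      calc B⁻¹ * w x ≤ B⁻¹ * B := mul_le_mul_right (hw x) _
        _ = 1 := ENNReal.inv_mul_cancel hB0 hB)
    have e1 : ∀ F : ℝ → ℝ≥0∞, ∫⁻ x in Ioo l u, w x * F x =
        B * ∫⁻ x in Ioo l u, B⁻¹ * w x * F x := by
      intro F
      rw [← lintegral_const_mul' _ _ hB]
      refine lintegral_congr fun x => ?_
      rw [← mul_assoc, ← mul_assoc, ENNReal.mul_inv_cancel hB0 hB, one_mul]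
    rw [e1, e1 fun x => ENNReal.ofReal (g x)]
    calc B * ∫⁻ x in Ioo l u, B⁻¹ * w x * ∫⁻ y in Ioo l u, k x y * ENNReal.ofReal (g y)
        ≤ B * ((C * ∫⁻ x in Ioo l u, B⁻¹ * w x * ENNReal.ofReal (g x)) + ε / B) :=
          mul_le_mul_right h1 _
      _ = C * (B * ∫⁻ x in Ioo l u, B⁻¹ * w x * ENNReal.ofReal (g x)) + B * (ε / B) := by ring
      _ = _ := by rw [ENNReal.mul_div_cancel hB0 hB]

/-- Swapping the integrals. -/
lemma Ker.swap {C : ℝ≥0∞} {δ : ℝ} {k : ℝ → ℝ → ℝ≥0∞} (h : Ker l u C δ k) {g w : ℝ → ℝ≥0∞}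
    (hg : Measurable g) (hw : Measurable w) :
    ∫⁻ x in Ioo l u, g x * ∫⁻ y in Ioo l u, k x y * w y =
      ∫⁻ y in Ioo l u, w y * ∫⁻ x in Ioo l u, k x y * g x := by
  have e1 : ∀ x, g x * ∫⁻ y in Ioo l u, k x y * w y =
      ∫⁻ y in Ioo l u, g x * (k x y * w y) := by
    intro x
    have hm : Measurable fun y => k x y * w y :=
      (h.meas.comp measurable_prodMk_left).mul hw
    rw [lintegral_const_mul _ hm]
  have e2 : ∀ y, w y * ∫⁻ x in Ioo l u, k x y * g x =
      ∫⁻ x in Ioo l u, g x * (k x y * w y) := by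
    intro y
    have hm : Measurable fun x => k x y * g x :=
      (h.meas.comp measurable_prodMk_right).mul hg
    rw [← lintegral_const_mul _ hm]
    refine lintegral_congr fun x => ?_
    ring
  simp_rw [e1, e2]
  refine lintegral_lintegral_swap ?_
  have := ((hg.comp measurable_fst).mul (h.meas.mul (hw.comp measurable_snd)))
  exact this.aemeasurable

/-- The mean oscillation tends to zero. -/
theorem osc_conv (C : ℝ≥0∞) (hC : C ≠ ⊤) {g : ℝ → ℝ}
    (hgm : Measurable g) (hg : IntegrableOn g (Ioo l u)) {v : ℝ → ℂ} (hvm : Measurable v)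
    (hv : ∀ x, ‖v x‖ ≤ 1) {ε : ℝ≥0∞} (hε : ε ≠ 0) :
    ∃ δ0 > 0, ∀ (k : ℝ → ℝ → ℝ≥0∞), Ker l u C δ0 k →
      ∫⁻ x in Ioo l u, ENNReal.ofReal (g x) * ∫⁻ y in Ioo l u, k x y * ‖v y - v x‖ₑ ≤ ε := by
  have hI : ∫⁻ x in Ioo l u, ENNReal.ofReal (g x) ≠ ⊤ := by
    have := hg.lintegral_lt_top
    exact this.ne
  obtain ⟨η, hη0, hη⟩ : ∃ η : ℝ, 0 < η ∧
      C * ENNReal.ofReal η + C * ENNReal.ofReal η +
        C * (ENNReal.ofReal η * ∫⁻ x in Ioo l u, ENNReal.ofReal (g x)) ≤ ε / 2 := by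
    have hfin : C + C + C * (∫⁻ x in Ioo l u, ENNReal.ofReal (g x)) ≠ ⊤ := by
      finiteness
    obtain ⟨η, h1, h2⟩ := ENNReal.exists_pos_mul_lt hfin
      (show ε / 2 ≠ 0 from (ENNReal.half_pos hε).ne')
    rcases eq_or_ne η ⊤ with rfl | hηt
    · refine ⟨1, one_pos, ?_⟩
      simp only [ENNReal.ofReal_one, mul_one, one_mul]
      refine le_trans ?_ h2.le
      exact le_mul_of_one_le_left zero_le le_top
    · refine ⟨η.toReal, ENNReal.toReal_pos h1.ne' hηt, ?_⟩
      rw [ENNReal.ofReal_toReal hηt]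
      refine le_trans (le_of_eq ?_) h2.le
      ring
  set μ : Measure ℝ := (volume.restrict (Ioo l u)).withDensity fun x => ENNReal.ofReal (g x)
    with hμ
  have hfm : IsFiniteMeasure μ := isFiniteMeasure_withDensity_ofReal hg.2
  have hvi : Integrable v μ := by
    refine Integrable.mono' (integrable_const (1 : ℝ)) hvm.aestronglyMeasurable ?_
    exact Filter.Eventually.of_forall hv
  obtain ⟨vc, hc1, hc2, hc3, hc4⟩ := Integrable.exists_hasCompactSupport_lintegral_sub_le hvi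
    (ε := ENNReal.ofReal η) (by simpa using hη0)
  obtain ⟨B, hB⟩ := hc1.exists_bound_of_continuous hc3
  have hB0 : 0 ≤ B := (norm_nonneg _).trans (hB 0)
  have huc := hc1.uniformContinuous_of_continuous hc3
  obtain ⟨δ1, hδ1, hδ⟩ := Metric.uniformContinuous_iff.mp huc η hη0
  obtain ⟨δ2, hδ2, hk2⟩ := kernel_conv_bdd (l := l) (u := u) C hC hgm hg
    (B := ENNReal.ofReal (1 + B)) ENNReal.ofReal_ne_top (ε := ε / 2) (ENNReal.half_pos hε).ne'
  refine ⟨min (δ1 / 2) δ2, lt_min (by linarith) hδ2, fun k hk => ?_⟩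
  have hkk : Ker l u C δ2 k := ⟨hk.meas, hk.left, hk.right, fun x hx y hy h =>
    (hk.range x hx y hy h).trans (min_le_right _ _)⟩
  set h : ℝ → ℝ≥0∞ := fun x => ‖v x - vc x‖ₑ with hh
  have hhm : Measurable h := (hvm.sub hc3.measurable).enorm
  have hhB : ∀ x, h x ≤ ENNReal.ofReal (1 + B) := by
    intro x
    rw [hh]
    show ‖v x - vc x‖ₑ ≤ _
    rw [← ofReal_norm]
    exact ENNReal.ofReal_le_ofReal ((norm_sub_le _ _).trans (add_le_add (hv x) (hB x)))
  have hgm' : Measurable fun x => ENNReal.ofReal (g x) := hgm.ennreal_ofReal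
  have hhg : ∫⁻ x in Ioo l u, ENNReal.ofReal (g x) * h x ≤ ENNReal.ofReal η := by
    rw [hμ, lintegral_withDensity_eq_lintegral_mul _ hgm' hhm] at hc2
    exact hc2
  have hin : ∀ x ∈ Ioo l u, ∫⁻ y in Ioo l u, k x y * ‖v y - v x‖ₑ ≤
      (∫⁻ y in Ioo l u, k x y * h y) + C * (h x + ENNReal.ofReal η) := by
    intro x hx
    have hm : Measurable fun y => k x y := hk.meas.comp measurable_prodMk_left
    have hmh : Measurable fun y => k x y * h y := hm.mul hhm
    calc ∫⁻ y in Ioo l u, k x y * ‖v y - v x‖ₑ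
        ≤ ∫⁻ y in Ioo l u, (k x y * h y + k x y * (h x + ENNReal.ofReal η)) := by
          refine setLIntegral_mono' measurableSet_Ioo fun y hy => ?_
          rcases eq_or_ne (k x y) 0 with h0 | h0
          · simp [h0]
          have hxy := (hk.range x hx y hy h0).trans (min_le_left _ _)
          have h1 : ‖vc x - vc y‖ < η := by
            have := hδ (a := x) (b := y) (by rw [Real.dist_eq]; linarith)
            rwa [dist_eq_norm] at this
          rw [← mul_add]
          refine mul_le_mul_right ?_ _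
          rw [hh]
          show ‖v y - v x‖ₑ ≤ ‖v y - vc y‖ₑ + (‖v x - vc x‖ₑ + _)
          rw [← ofReal_norm, ← ofReal_norm, ← ofReal_norm,
            ← ENNReal.ofReal_add (norm_nonneg _) hη0.le,
            ← ENNReal.ofReal_add (norm_nonneg _) (by positivity)]
          refine ENNReal.ofReal_le_ofReal ?_
          have e : v y - v x = (v y - vc y) - (v x - vc x) - (vc x - vc y) := by ring
          calc ‖v y - v x‖ ≤ ‖(v y - vc y) - (v x - vc x)‖ + ‖vc x - vc y‖ := by
                rw [e]; exact norm_sub_le _ _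
            _ ≤ _ := by
                have := norm_sub_le (v y - vc y) (v x - vc x)
                linarith
      _ = (∫⁻ y in Ioo l u, k x y * h y) + (∫⁻ y in Ioo l u, k x y) *
            (h x + ENNReal.ofReal η) := by
          rw [lintegral_add_left hmh, lintegral_mul_const _ hm]
      _ ≤ _ := add_le_add le_rfl (mul_le_mul_left (hk.right x hx) _)
  have hm1 : Measurable fun x => ∫⁻ y in Ioo l u, k x y * h y :=
    Measurable.lintegral_prod_right (hk.meas.mul (hhm.comp measurable_snd))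
  calc ∫⁻ x in Ioo l u, ENNReal.ofReal (g x) * ∫⁻ y in Ioo l u, k x y * ‖v y - v x‖ₑ
      ≤ ∫⁻ x in Ioo l u, (ENNReal.ofReal (g x) * (∫⁻ y in Ioo l u, k x y * h y) +
          C * (ENNReal.ofReal (g x) * h x) + C * (ENNReal.ofReal η * ENNReal.ofReal (g x))) := by
        refine setLIntegral_mono' measurableSet_Ioo fun x hx => ?_
        refine (mul_le_mul_right (hin x hx) _).trans (le_of_eq ?_)
        ring
    _ = (∫⁻ x in Ioo l u, ENNReal.ofReal (g x) * (∫⁻ y in Ioo l u, k x y * h y)) +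
          C * (∫⁻ x in Ioo l u, ENNReal.ofReal (g x) * h x) +
          C * (ENNReal.ofReal η * ∫⁻ x in Ioo l u, ENNReal.ofReal (g x)) := by
        rw [lintegral_add_left (by fun_prop), lintegral_add_left (by fun_prop),
          lintegral_const_mul _ (by fun_prop), lintegral_const_mul _ (by fun_prop),
          lintegral_const_mul _ (by fun_prop)]
    _ ≤ (C * ENNReal.ofReal η + ε / 2) + C * ENNReal.ofReal η +
          C * (ENNReal.ofReal η * ∫⁻ x in Ioo l u, ENNReal.ofReal (g x)) := by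
        refine add_le_add (add_le_add ?_ ?_) le_rfl
        · rw [hk.swap hgm' hhm]
          refine (hk2 _ hkk.symm h hhm hhB).trans (add_le_add (mul_le_mul_right ?_ _) le_rfl)
          refine le_trans (le_of_eq ?_) hhg
          refine lintegral_congr fun x => ?_
          ring
        · exact mul_le_mul_right hhg _
    _ = (C * ENNReal.ofReal η + C * ENNReal.ofReal η +
          C * (ENNReal.ofReal η * ∫⁻ x in Ioo l u, ENNReal.ofReal (g x))) + ε / 2 := by ring
    _ ≤ ε / 2 + ε / 2 := add_le_add hη le_rfl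
    _ = ε := ENNReal.add_halves ε

end Pool.Agent.H7.GT
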