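import Pool.Agent.H7.GT.Osc

/-!
# Pointwise form of the convergence of the kernels, oscillation in the mean
-/

set_option autoImplicit false

namespace Pool.Agent.H7.GT

open MeasureTheory Set ENNReal

variable {l u : ℝ} {f p : ℝ → ℝ} {r r' x y : ℝ}

lemma exists_eta (C : ℝ≥0∞) (hC : C ≠ ⊤) (V : ℝ≥0∞) (hV : V ≠ ⊤) {ε : ℝ≥0∞} (hε : ε ≠ 0) :
    ∃ η : ℝ, 0 < η ∧ C * ENNReal.ofReal η + C * ENNReal.ofReal η +
        C * (ENNReal.ofReal η * V) ≤ ε := by
  have hfin : C + C + C * V ≠ ⊤ := by finiteness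
  obtain ⟨η, h1, h2⟩ := ENNReal.exists_pos_mul_lt hfin hε
  rcases eq_or_ne η ⊤ with rfl | hηt
  · refine ⟨1, one_pos, ?_⟩
    simp only [ENNReal.ofReal_one, mul_one, one_mul]
    refine le_trans ?_ h2.le
    exact le_mul_of_one_le_left zero_le le_top
  · refine ⟨η.toReal, ENNReal.toReal_pos h1.ne' hηt, ?_⟩
    rw [ENNReal.ofReal_toReal hηt]
    refine le_trans (le_of_eq ?_) h2.le
    ring

/-- Pointwise form of `kernel_conv`, with the right marginal `C'` as the constant. -/
theorem kernel_conv_pt (C : ℝ≥0∞) (hC : C ≠ ⊤) {g : ℝ → ℝ}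
    (hgm : Measurable g) (hg : IntegrableOn g (Ioo l u))
    {ε : ℝ≥0∞} (hε : ε ≠ 0) :
    ∃ δ0 > 0, ∀ (k : ℝ → ℝ → ℝ≥0∞), Ker l u C δ0 k → ∃ e : ℝ → ℝ≥0∞, Measurable e ∧
      ∫⁻ x in Ioo l u, e x ≤ ε ∧ ∀ C' ≤ C, (∀ x ∈ Ioo l u, ∫⁻ y in Ioo l u, k x y ≤ C') →
        ∀ x ∈ Ioo l u, ∫⁻ y in Ioo l u, k x y * ENNReal.ofReal (g y) ≤
          C' * ENNReal.ofReal (g x) + e x := by
  obtain ⟨η, hη0, hη⟩ := exists_eta C hC (volume (Ioo l u)) (by rw [Real.volume_Ioo]; finiteness) hε
  obtain ⟨gc, hc1, hc2, hc3, hc4⟩ := Integrable.exists_hasCompactSupport_lintegral_sub_le hg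
    (ε := ENNReal.ofReal η) (by simpa using hη0)
  have huc := hc1.uniformContinuous_of_continuous hc3
  obtain ⟨δ1, hδ1, hδ⟩ := Metric.uniformContinuous_iff.mp huc η hη0
  refine ⟨δ1 / 2, by linarith, fun k hk => ?_⟩
  set h : ℝ → ℝ≥0∞ := fun x => ‖g x - gc x‖ₑ with hh
  have hhm : Measurable h := (hgm.sub hc3.measurable).enorm
  have hgm' : Measurable fun x => ENNReal.ofReal (g x) := hgm.ennreal_ofReal
  have hm1 : Measurable fun x => ∫⁻ y in Ioo l u, k x y * h y :=
    Measurable.lintegral_prod_right (hk.meas.mul (hhm.comp measurable_snd))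
  refine ⟨fun x => (∫⁻ y in Ioo l u, k x y * h y) + C * h x + C * ENNReal.ofReal η,
    by fun_prop, ?_, ?_⟩
  · calc ∫⁻ x in Ioo l u, ((∫⁻ y in Ioo l u, k x y * h y) + C * h x + C * ENNReal.ofReal η)
        = (∫⁻ x in Ioo l u, ∫⁻ y in Ioo l u, k x y * h y) + C * (∫⁻ x in Ioo l u, h x) +
          C * (ENNReal.ofReal η * volume (Ioo l u)) := by
          rw [lintegral_add_left (by fun_prop), lintegral_add_left hm1,
            lintegral_const_mul _ hhm, setLIntegral_const, mul_assoc C]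
      _ ≤ C * ENNReal.ofReal η + C * ENNReal.ofReal η +
            C * (ENNReal.ofReal η * volume (Ioo l u)) := by
          refine add_le_add (add_le_add ?_ ?_) le_rfl
          · exact (hk.tonelli hhm).trans (mul_le_mul_right hc2 _)
          · exact mul_le_mul_right hc2 _
      _ ≤ ε := hη
  · intro C' hC' hr x hx
    have hpt : ∀ y ∈ Ioo l u, k x y * ENNReal.ofReal (g y) ≤
        k x y * h y + k x y * (h x + ENNReal.ofReal (g x) + ENNReal.ofReal η) := by
      intro y hy
      rcases eq_or_ne (k x y) 0 with h0 | h0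
      · simp [h0]
      have hxy := hk.range x hx y hy h0
      have h1 : |gc x - gc y| < η := by
        have := hδ (a := x) (b := y) (by rw [Real.dist_eq]; linarith)
        rwa [Real.dist_eq] at this
      rw [← mul_add]
      refine mul_le_mul_right ?_ _
      have h2 : g y ≤ |g y - gc y| + (|g x - gc x| + max (g x) 0 + η) := by
        have a1 := le_abs_self (g y - gc y)
        have a2 := neg_abs_le (g x - gc x)
        have a3 := neg_abs_le (gc x - gc y)
        have a4 := le_max_left (g x) 0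
        linarith
      refine (ENNReal.ofReal_le_ofReal h2).trans (le_of_eq ?_)
      have e1 : ∀ z, h z = ENNReal.ofReal |g z - gc z| := fun z => by
        rw [hh, ← Real.norm_eq_abs, ofReal_norm]
      rw [ENNReal.ofReal_add (abs_nonneg _) (by positivity),
        ENNReal.ofReal_add (by positivity) hη0.le,
        ENNReal.ofReal_add (abs_nonneg _) (le_max_right _ _), e1, e1]
      congr 3
      rw [ENNReal.ofReal_max, ENNReal.ofReal_zero, max_eq_left zero_le]
    have hm : Measurable fun y => k x y := hk.meas.comp measurable_prodMk_left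
    have hmh : Measurable fun y => k x y * h y := hm.mul hhm
    calc ∫⁻ y in Ioo l u, k x y * ENNReal.ofReal (g y)
        ≤ ∫⁻ y in Ioo l u, (k x y * h y + k x y * (h x + ENNReal.ofReal (g x) +
            ENNReal.ofReal η)) :=
          setLIntegral_mono (hmh.add (hm.mul_const _)) fun y hy => hpt y hy
      _ = (∫⁻ y in Ioo l u, k x y * h y) + (∫⁻ y in Ioo l u, k x y) * (h x +
            ENNReal.ofReal (g x) + ENNReal.ofReal η) := by
          rw [lintegral_add_left hmh, lintegral_mul_const _ hm]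
      _ ≤ (∫⁻ y in Ioo l u, k x y * h y) + C' * (h x +
            ENNReal.ofReal (g x) + ENNReal.ofReal η) :=
          add_le_add le_rfl (mul_le_mul_left (hr x hx) _)
      _ = C' * ENNReal.ofReal (g x) + ((∫⁻ y in Ioo l u, k x y * h y) + C' * h x +
            C' * ENNReal.ofReal η) := by ring
      _ ≤ _ := add_le_add le_rfl (add_le_add (add_le_add le_rfl (mul_le_mul_left hC' _))
          (mul_le_mul_left hC' _))

/-- The double integral of the oscillation. -/
lemma Ker.osc {C : ℝ≥0∞} {δ : ℝ} {k : ℝ → ℝ → ℝ≥0∞} (hk : Ker l u C δ k) {h : ℝ → ℝ≥0∞}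
    (hhm : Measurable h) {Φ : ℝ → ℝ → ℝ≥0∞} {η : ℝ≥0∞}
    (hΦ : ∀ x ∈ Ioo l u, ∀ y ∈ Ioo l u, |x - y| ≤ δ → Φ x y ≤ h y + h x + η) :
    ∫⁻ x in Ioo l u, ∫⁻ y in Ioo l u, k x y * Φ x y ≤
      C * (∫⁻ x in Ioo l u, h x) + C * (∫⁻ x in Ioo l u, h x) + C * (η * volume (Ioo l u)) := by
  have hm1 : Measurable fun x => ∫⁻ y in Ioo l u, k x y * h y :=
    Measurable.lintegral_prod_right (hk.meas.mul (hhm.comp measurable_snd))
  calc ∫⁻ x in Ioo l u, ∫⁻ y in Ioo l u, k x y * Φ x y
      ≤ ∫⁻ x in Ioo l u, ((∫⁻ y in Ioo l u, k x y * h y) + C * h x + C * η) := by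
        refine setLIntegral_mono' measurableSet_Ioo fun x hx => ?_
        have hm : Measurable fun y => k x y := hk.meas.comp measurable_prodMk_left
        have hmh : Measurable fun y => k x y * h y := hm.mul hhm
        calc ∫⁻ y in Ioo l u, k x y * Φ x y
            ≤ ∫⁻ y in Ioo l u, (k x y * h y + k x y * (h x + η)) := by
              refine setLIntegral_mono' measurableSet_Ioo fun y hy => ?_
              rcases eq_or_ne (k x y) 0 with h0 | h0
              · simp [h0]
              rw [← mul_add, ← add_assoc]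
              exact mul_le_mul_right (hΦ x hx y hy (hk.range x hx y hy h0)) _
          _ = (∫⁻ y in Ioo l u, k x y * h y) + (∫⁻ y in Ioo l u, k x y) * (h x + η) := by
              rw [lintegral_add_left hmh, lintegral_mul_const _ hm]
          _ ≤ (∫⁻ y in Ioo l u, k x y * h y) + C * (h x + η) :=
              add_le_add le_rfl (mul_le_mul_left (hk.right x hx) _)
          _ = _ := by ring
    _ = (∫⁻ x in Ioo l u, ∫⁻ y in Ioo l u, k x y * h y) + C * (∫⁻ x in Ioo l u, h x) +
          C * (η * volume (Ioo l u)) := by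
        rw [lintegral_add_left (by fun_prop), lintegral_add_left hm1,
          lintegral_const_mul _ hhm, setLIntegral_const, mul_assoc C]
    _ ≤ _ := add_le_add (add_le_add (hk.tonelli hhm) le_rfl) le_rfl

theorem osc1 (C : ℝ≥0∞) (hC : C ≠ ⊤) {v : ℝ → ℂ} (hvm : Measurable v)
    (hv : IntegrableOn v (Ioo l u)) {ε : ℝ≥0∞} (hε : ε ≠ 0) :
    ∃ δ0 > 0, ∀ (k : ℝ → ℝ → ℝ≥0∞), Ker l u C δ0 k →
      ∫⁻ x in Ioo l u, ∫⁻ y in Ioo l u, k x y * ‖v y - v x‖ₑ ≤ ε := by
  obtain ⟨η, hη0, hη⟩ := exists_eta C hC (volume (Ioo l u)) (by rw [Real.volume_Ioo]; finiteness) hε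
  obtain ⟨vc, hc1, hc2, hc3, hc4⟩ := Integrable.exists_hasCompactSupport_lintegral_sub_le hv
    (ε := ENNReal.ofReal η) (by simpa using hη0)
  have huc := hc1.uniformContinuous_of_continuous hc3
  obtain ⟨δ1, hδ1, hδ⟩ := Metric.uniformContinuous_iff.mp huc η hη0
  refine ⟨δ1 / 2, by linarith, fun k hk => ?_⟩
  have hhm : Measurable fun x => ‖v x - vc x‖ₑ := (hvm.sub hc3.measurable).enorm
  refine (hk.osc hhm (η := ENNReal.ofReal η) ?_).trans (le_trans ?_ hη)
  · intro x _ y _ hxy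
    have h1 : ‖vc x - vc y‖ < η := by
      have := hδ (a := x) (b := y) (by rw [Real.dist_eq]; linarith)
      rwa [dist_eq_norm] at this
    rw [← ofReal_norm, ← ofReal_norm, ← ofReal_norm,
      ← ENNReal.ofReal_add (norm_nonneg _) (norm_nonneg _),
      ← ENNReal.ofReal_add (by positivity) hη0.le]
    refine ENNReal.ofReal_le_ofReal ?_
    have e : v y - v x = (v y - vc y) - (v x - vc x) - (vc x - vc y) := by ring
    calc ‖v y - v x‖ ≤ ‖(v y - vc y) - (v x - vc x)‖ + ‖vc x - vc y‖ := by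
          rw [e]; exact norm_sub_le _ _
      _ ≤ _ := by
          have := norm_sub_le (v y - vc y) (v x - vc x)
          linarith
  · gcongr

theorem osc2 (C : ℝ≥0∞) (hC : C ≠ ⊤) {v : ℝ → ℝ} (hvm : Measurable v)
    (hv : IntegrableOn (fun x => v x ^ 2) (Ioo l u)) {ε : ℝ≥0∞} (hε : ε ≠ 0) :
    ∃ δ0 > 0, ∀ (k : ℝ → ℝ → ℝ≥0∞), Ker l u C δ0 k →
      ∫⁻ x in Ioo l u, ∫⁻ y in Ioo l u, k x y * ENNReal.ofReal (|v y - v x| ^ 2) ≤ ε := by
  obtain ⟨η, hη0, hη⟩ := exists_eta C hC (volume (Ioo l u)) (by rw [Real.volume_Ioo]; finiteness) hε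
  have hmem : MemLp v 2 (volume.restrict (Ioo l u)) := by
    rw [memLp_two_iff_integrable_sq hvm.aestronglyMeasurable]
    exact hv
  have hs0 : 0 < Real.sqrt (η / 3) := Real.sqrt_pos.mpr (by positivity)
  obtain ⟨vc, hc1, hc2, hc3, hc4⟩ := hmem.exists_hasCompactSupport_eLpNorm_sub_le (by simp)
    (ε := ENNReal.ofReal (Real.sqrt (η / 3))) (by simpa using hs0)
  have huc := hc1.uniformContinuous_of_continuous hc3
  obtain ⟨δ1, hδ1, hδ⟩ := Metric.uniformContinuous_iff.mp huc _ hs0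
  refine ⟨δ1 / 2, by linarith, fun k hk => ?_⟩
  have hsm : Measurable fun x => v x - vc x := hvm.sub hc3.measurable
  have hhm : Measurable fun x => ENNReal.ofReal (3 * (v x - vc x) ^ 2) := by fun_prop
  have hint : ∫⁻ x in Ioo l u, ENNReal.ofReal (3 * (v x - vc x) ^ 2) ≤ ENNReal.ofReal η := by
    have h1 : eLpNorm (v - vc) 2 (volume.restrict (Ioo l u)) ^ 2 =
        ∫⁻ x in Ioo l u, ENNReal.ofReal ((v x - vc x) ^ 2) := by
      have h2 := eLpNorm_nnreal_pow_eq_lintegral (f := v - vc)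
        (μ := volume.restrict (Ioo l u)) (p := 2) (by norm_num)
      have h3 : eLpNorm (v - vc) 2 (volume.restrict (Ioo l u)) ^ (2 : ℝ) =
          ∫⁻ x in Ioo l u, ‖(v - vc) x‖ₑ ^ (2 : ℝ) := by
        simpa using h2
      rw [ENNReal.rpow_two] at h3
      rw [h3]
      refine lintegral_congr fun x => ?_
      rw [ENNReal.rpow_two, Pi.sub_apply, ← ofReal_norm, ← ENNReal.ofReal_pow (norm_nonneg _),
        Real.norm_eq_abs, sq_abs]
    calc ∫⁻ x in Ioo l u, ENNReal.ofReal (3 * (v x - vc x) ^ 2)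
        = ENNReal.ofReal 3 * ∫⁻ x in Ioo l u, ENNReal.ofReal ((v x - vc x) ^ 2) := by
          rw [← lintegral_const_mul _ (by fun_prop)]
          refine lintegral_congr fun x => ?_
          rw [← ENNReal.ofReal_mul (by norm_num)]
      _ = ENNReal.ofReal 3 * eLpNorm (v - vc) 2 (volume.restrict (Ioo l u)) ^ 2 := by rw [h1]
      _ ≤ ENNReal.ofReal 3 * ENNReal.ofReal (Real.sqrt (η / 3)) ^ 2 := by gcongr
      _ = ENNReal.ofReal η := by
          rw [← ENNReal.ofReal_pow (Real.sqrt_nonneg _), Real.sq_sqrt (by positivity),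
            ← ENNReal.ofReal_mul (by norm_num)]
          congr 1
          ring
  refine (hk.osc hhm (η := ENNReal.ofReal η) ?_).trans (le_trans ?_ hη)
  · intro x _ y _ hxy
    have h1 : |vc x - vc y| < Real.sqrt (η / 3) := by
      have := hδ (a := x) (b := y) (by rw [Real.dist_eq]; linarith)
      rwa [Real.dist_eq] at this
    have h2 : (vc x - vc y) ^ 2 ≤ η / 3 := by
      rw [← sq_abs, ← Real.sq_sqrt (show (0 : ℝ) ≤ η / 3 by positivity)]
      exact pow_le_pow_left₀ (abs_nonneg _) h1.le 2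
    rw [← ENNReal.ofReal_add (by positivity) (by positivity),
      ← ENNReal.ofReal_add (by positivity) hη0.le]
    refine ENNReal.ofReal_le_ofReal ?_
    rw [sq_abs]
    have e : v y - v x = (v y - vc y) - (v x - vc x) - (vc x - vc y) := by ring
    rw [e]
    nlinarith [sq_nonneg ((v y - vc y) + (v x - vc x)), sq_nonneg ((v y - vc y) + (vc x - vc y)),
      sq_nonneg ((v x - vc x) - (vc x - vc y))]
  · gcongr

end Pool.Agent.H7.GT
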