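import Pool.Agent.H7.GT.Defs

/-!
# The mass radius
-/

set_option autoImplicit false

namespace Pool.Agent.H7.GT

open MeasureTheory Set

variable {l u : ℝ} {f p : ℝ → ℝ} {r r' x y : ℝ}

/-- The set of the radii. -/
def rset (l u : ℝ) (p : ℝ → ℝ) (r x : ℝ) : Set ℝ :=
  {ρ | 0 ≤ ρ ∧ l ≤ x - ρ ∧ x + ρ ≤ u ∧ p (x + ρ) - p (x - ρ) ≤ r}

lemma rad_eq : rad l u p r x = sSup (rset l u p r x) := rfl

lemma rset_bdd : BddAbove (rset l u p r x) :=
  ⟨x - l, fun ρ h => by have := h.2.1; linarith⟩

lemma rad_nonneg : 0 ≤ rad l u p r x := Real.sSup_nonneg fun _ h => h.1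

lemma le_rad {ρ : ℝ} (h : ρ ∈ rset l u p r x) : ρ ≤ rad l u p r x := le_csSup rset_bdd h

lemma rad_le_left (h : l ≤ x) : rad l u p r x ≤ x - l :=
  Real.sSup_le (fun ρ hρ => by have := hρ.2.1; linarith) (by linarith)

lemma rad_le_right (h : x ≤ u) : rad l u p r x ≤ u - x :=
  Real.sSup_le (fun ρ hρ => by have := hρ.2.2.1; linarith) (by linarith)

lemma rad_out (h : x ∉ Ioo l u) : rad l u p r x = 0 := by
  refine le_antisymm (Real.sSup_le (fun ρ hρ => ?_) le_rfl) rad_nonneg
  by_contra hc
  push Not at hc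
  exact h ⟨by have := hρ.2.1; linarith, by have := hρ.2.2.1; linarith⟩

/-- Monotonicity in the mass. -/
lemma rad_mono (h : r ≤ r') : rad l u p r x ≤ rad l u p r' x :=
  Real.sSup_le (fun ρ hρ => le_rad ⟨hρ.1, hρ.2.1, hρ.2.2.1, hρ.2.2.2.trans h⟩) rad_nonneg

namespace Dat

variable (H : Dat l u f p)
include H

lemma mono {x y : ℝ} (h1 : l ≤ x) (h2 : x ≤ y) (h3 : y ≤ u) : p x ≤ p y := by
  rcases h2.eq_or_lt with h | h
  · rw [h]
  · exact (H.smono x y h1 h h3).le

lemma int : IntegrableOn f (Ioo l u) := by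
  have h1 : IntegrableOn (fun x => f x ^ 2 + 1) (Ioo l u) :=
    H.sq.add (integrableOn_const (by simp))
  refine Integrable.mono' h1 H.meas.aestronglyMeasurable (Filter.Eventually.of_forall fun x => ?_)
  rw [Real.norm_eq_abs, abs_of_nonneg (H.nonneg x)]
  nlinarith [sq_nonneg (f x - 1), sq_nonneg (f x + 1)]

lemma cont : ContinuousOn p (Icc l u) := by
  have h1 : IntegrableOn f (Icc l u) := by
    rw [integrableOn_Icc_iff_integrableOn_Ioo]; exact H.int
  have h2 : ContinuousOn (fun x => ∫ z in l..x, f z) (Icc l u) := by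
    have h3 := intervalIntegral.continuousOn_primitive_interval (μ := volume) (a := l) (b := u)
      (f := f) (by rw [uIcc_of_le H.lt.le]; exact h1)
    rwa [uIcc_of_le H.lt.le] at h3
  have h4 : EqOn p (fun x => (∫ z in l..x, f z) + p l) (Icc l u) := by
    intro x hx
    have h5 := H.prim l x le_rfl hx.1 hx.2
    show p x = (∫ z in l..x, f z) + p l
    rw [intervalIntegral.integral_of_le hx.1, integral_Ioc_eq_integral_Ioo, ← h5]
    ring
  exact (h2.add continuousOn_const).congr h4

lemma cmass (hx : x ∈ Icc l u) :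
    ContinuousOn (fun ρ => p (x + ρ) - p (x - ρ)) (Icc 0 (min (x - l) (u - x))) := by
  refine ContinuousOn.sub ?_ ?_
  · refine H.cont.comp (by fun_prop) fun ρ hρ => ?_
    have h1 := hρ.2.trans (min_le_right _ _)
    exact ⟨by linarith [hx.1, hρ.1], by linarith⟩
  · refine H.cont.comp (by fun_prop) fun ρ hρ => ?_
    have h1 := hρ.2.trans (min_le_left _ _)
    exact ⟨by linarith, by linarith [hx.2, hρ.1]⟩

lemma rad_mem (hr : 0 ≤ r) (hx : x ∈ Icc l u) : rad l u p r x ∈ rset l u p r x := by
  have h1 : rset l u p r x = Icc 0 (min (x - l) (u - x)) ∩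
      (fun ρ => p (x + ρ) - p (x - ρ)) ⁻¹' (Iic r) := by
    ext ρ
    constructor
    · intro h
      exact ⟨⟨h.1, le_min (by linarith [h.2.1]) (by linarith [h.2.2.1])⟩, h.2.2.2⟩
    · intro h
      have h2 := h.1.2.trans (min_le_left _ _)
      have h3 := h.1.2.trans (min_le_right _ _)
      exact ⟨h.1.1, by linarith, by linarith, h.2⟩
  have h2 : IsClosed (rset l u p r x) := by
    rw [h1]
    exact (H.cmass hx).preimage_isClosed_of_isClosed isClosed_Icc isClosed_Iic
  refine h2.csSup_mem ⟨0, le_rfl, by simpa using hx.1, by simpa using hx.2, ?_⟩ rset_bdd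
  simpa using hr

/-- The radius is 1-Lipschitz. -/
lemma rad_lip (x y : ℝ) : rad l u p r x ≤ rad l u p r y + |x - y| := by
  refine Real.sSup_le (fun ρ hρ => ?_) (add_nonneg rad_nonneg (abs_nonneg _))
  rcases le_total ρ |x - y| with h | h
  · linarith [rad_nonneg (l := l) (u := u) (p := p) (r := r) (x := y)]
  · have h1 : ρ - |x - y| ∈ rset l u p r y := by
      obtain ⟨h2, h3, h4, h5⟩ := hρ
      have h6 := neg_abs_le (x - y)
      have h7 := le_abs_self (x - y)
      refine ⟨by linarith, by linarith, by linarith, ?_⟩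
      have h8 : p (y + (ρ - |x - y|)) ≤ p (x + ρ) := H.mono (by linarith) (by linarith) h4
      have h9 : p (x - ρ) ≤ p (y - (ρ - |x - y|)) := H.mono h3 (by linarith) (by linarith)
      linarith
    linarith [le_rad h1]

lemma rad_abs (x y : ℝ) : |rad l u p r x - rad l u p r y| ≤ |x - y| := by
  rw [abs_le]
  constructor
  · have := H.rad_lip (r := r) y x
    rw [abs_sub_comm] at this
    linarith
  · linarith [H.rad_lip (r := r) x y]

lemma rad_lipschitz : LipschitzWith 1 (rad l u p r) := by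
  refine LipschitzWith.of_dist_le_mul fun x y => ?_
  rw [Real.dist_eq, Real.dist_eq]
  simpa using H.rad_abs x y

lemma rad_cont : Continuous (rad l u p r) := H.rad_lipschitz.continuous

/-- The mass of the ball is `r` off the zone. -/
lemma rad_mass (hr : 0 ≤ r) (hx : x ∉ zone l u p r) :
    p (x + rad l u p r x) - p (x - rad l u p r x) = r := by
  have hz : l < x ∧ x < u ∧ r < p x - p l ∧ r < p u - p x := by
    simp only [zone, mem_ofPred_eq] at hx
    push Not at hx
    exact hx
  obtain ⟨h1, h2, h3, h4⟩ := hz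
  have hxm : x ∈ Icc l u := ⟨h1.le, h2.le⟩
  have h5 := H.rad_mem hr hxm
  refine le_antisymm h5.2.2.2 ?_
  set m := min (x - l) (u - x) with hm
  have hm0 : 0 ≤ m := le_min (by linarith) (by linarith)
  have h6 : r ≤ p (x + m) - p (x - m) := by
    rcases le_total (x - l) (u - x) with h | h
    · rw [hm, min_eq_left h, show x - (x - l) = l by ring]
      have := H.mono (x := x) (y := x + (x - l)) h1.le (by linarith) (by linarith)
      linarith
    · rw [hm, min_eq_right h, show x + (u - x) = u by ring]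
      have := H.mono (x := x - (u - x)) (y := x) (by linarith) (by linarith) h2.le
      linarith
  obtain ⟨ρ, h7, h8⟩ := intermediate_value_Icc hm0 (H.cmass hxm) (show r ∈ Icc _ _ by
    refine ⟨?_, h6⟩
    simpa using hr)
  have h9 : ρ ∈ rset l u p r x :=
    ⟨h7.1, by linarith [h7.2.trans (min_le_left (x - l) (u - x))],
      by linarith [h7.2.trans (min_le_right (x - l) (u - x))], h8.le⟩
  have h10 := le_rad h9
  have h11 : p (x + ρ) - p (x - ρ) = r := h8
  have h12 := H.mono (x := x + ρ) (y := x + rad l u p r x) (by linarith [h7.1]) (by linarith)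
    (by linarith [h5.2.2.1])
  have h13 := H.mono (x := x - rad l u p r x) (y := x - ρ) (by linarith [h5.2.1]) (by linarith)
    (by linarith [h7.1])
  linarith

/-- The radius is positive in the open interval. -/
lemma rad_pos (hr : 0 < r) (hx : x ∈ Ioo l u) : 0 < rad l u p r x := by
  have hxm : x ∈ Icc l u := ⟨hx.1.le, hx.2.le⟩
  set m := min (x - l) (u - x) with hm
  have hm0 : 0 < m := lt_min (by linarith [hx.1]) (by linarith [hx.2])
  have hl : m ≤ x - l := min_le_left _ _
  have hu : m ≤ u - x := min_le_right _ _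
  rcases le_total (p (x + m) - p (x - m)) r with h | h
  · exact hm0.trans_le (le_rad ⟨hm0.le, by linarith, by linarith, h⟩)
  · obtain ⟨ρ, h7, h8⟩ := intermediate_value_Icc hm0.le (H.cmass hxm) (show r ∈ Icc _ _ by
      refine ⟨?_, h⟩
      simpa using hr.le)
    have h8' : p (x + ρ) - p (x - ρ) = r := h8
    have h10 := le_rad (l := l) (u := u) (p := p) (r := r) (x := x)
      ⟨h7.1, by linarith [h7.2], by linarith [h7.2], h8'.le⟩
    rcases h7.1.eq_or_lt with h9 | h9
    · rw [← h9] at h8'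
      simp at h8'
      linarith
    · linarith

/-- Uniform smallness of the radius. -/
lemma rad_small {δ : ℝ} (hδ : 0 < δ) :
    ∃ r0 > 0, ∀ r, 0 ≤ r → r ≤ r0 → ∀ x, rad l u p r x ≤ δ := by
  have key : ∀ r x, 0 ≤ r → δ < rad l u p r x →
      x ∈ Icc (l + δ) (u - δ) ∧ p (x + δ) - p (x - δ) ≤ r := by
    intro r x hr h
    have hx : x ∈ Ioo l u := by
      by_contra hc
      rw [rad_out hc] at h
      linarith
    have h5 := H.rad_mem hr (⟨hx.1.le, hx.2.le⟩ : x ∈ Icc l u)
    have h1 := h5.2.1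
    have h2 := h5.2.2.1
    refine ⟨⟨by linarith, by linarith⟩, ?_⟩
    have h3 := H.mono (x := x + δ) (y := x + rad l u p r x) (by linarith [hx.1]) (by linarith) h2
    have h4 := H.mono (x := x - rad l u p r x) (y := x - δ) h1 (by linarith) (by linarith [hx.2])
    linarith [h5.2.2.2]
  rcases (Icc (l + δ) (u - δ)).eq_empty_or_nonempty with he | hne
  · refine ⟨1, one_pos, fun r hr _ x => ?_⟩
    by_contra hc
    push Not at hc
    have := (key r x hr hc).1
    rw [he] at this
    exact this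
  · have hc : ContinuousOn (fun x => p (x + δ) - p (x - δ)) (Icc (l + δ) (u - δ)) := by
      refine ContinuousOn.sub ?_ ?_
      · exact H.cont.comp (by fun_prop) fun z hz => ⟨by linarith [hz.1], by linarith [hz.2]⟩
      · exact H.cont.comp (by fun_prop) fun z hz => ⟨by linarith [hz.1], by linarith [hz.2]⟩
    obtain ⟨x0, hx0, hmin⟩ := isCompact_Icc.exists_isMinOn hne hc
    have hpos : 0 < p (x0 + δ) - p (x0 - δ) := by
      have := H.smono (x0 - δ) (x0 + δ) (by linarith [hx0.1]) (by linarith) (by linarith [hx0.2])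
      linarith
    refine ⟨(p (x0 + δ) - p (x0 - δ)) / 2, by linarith, fun r hr hr0 x => ?_⟩
    by_contra hcon
    push Not at hcon
    obtain ⟨h1, h2⟩ := key r x hr hcon
    have h3 : p (x0 + δ) - p (x0 - δ) ≤ p (x + δ) - p (x - δ) := hmin h1
    linarith

/-- Equal balls: the radius in a subinterval is the same off its zone. -/
lemma rad_sub {l' u' : ℝ} (hl : l ≤ l') (hlu : l' < u') (hu : u' ≤ u) (hr : 0 ≤ r)
    (hx : x ∉ zone l' u' p r) : rad l u p r x = rad l' u' p r x := by
  have H' : Dat l' u' f p :=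
    ⟨hlu, H.meas, H.nonneg, H.sq.mono_set (Ioo_subset_Ioo hl hu),
      fun x y h1 h2 h3 => H.prim x y (hl.trans h1) h2 (h3.trans hu),
      fun x y h1 h2 h3 => H.smono x y (hl.trans h1) h2 (h3.trans hu)⟩
  have hm := H'.rad_mass hr hx
  have hz : l' < x ∧ x < u' := by
    simp only [zone, mem_ofPred_eq] at hx
    push Not at hx
    exact ⟨hx.1, hx.2.1⟩
  have hx' : x ∈ Icc l u := ⟨by linarith [hz.1], by linarith [hz.2]⟩
  have h2 : rad l' u' p r x ≤ rad l u p r x :=
    Real.sSup_le (fun ρ hρ => le_rad ⟨hρ.1, hl.trans hρ.2.1, hρ.2.2.1.trans hu, hρ.2.2.2⟩)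
      rad_nonneg
  refine le_antisymm ?_ h2
  by_contra hc
  push Not at hc
  have h5 := H.rad_mem hr hx'
  have h0 : 0 ≤ rad l' u' p r x := rad_nonneg
  have h3 := H.smono (x + rad l' u' p r x) (x + rad l u p r x) (by linarith [hx'.1]) (by linarith)
    h5.2.2.1
  have h4 := H.mono (x := x - rad l u p r x) (y := x - rad l' u' p r x) h5.2.1 (by linarith)
    (by linarith [hx'.2])
  linarith [h5.2.2.2]

end Dat

lemma rad_sub_le {l' u' : ℝ} (hl : l ≤ l') (hu : u' ≤ u) :
    rad l' u' p r x ≤ rad l u p r x :=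
  Real.sSup_le (fun ρ hρ => le_rad ⟨hρ.1, hl.trans hρ.2.1, hρ.2.2.1.trans hu, hρ.2.2.2⟩)
    rad_nonneg

/-- Affine equivariance of the radius. -/
lemma rad_aff {a b : ℝ} (ha : 0 < a) {q : ℝ → ℝ}
    (hq : ∀ x y, l ≤ x → x ≤ y → y ≤ u → q (a * y + b) - q (a * x + b) = p y - p x) :
    rad (a * l + b) (a * u + b) q r (a * x + b) = a * rad l u p r x := by
  refine le_antisymm (Real.sSup_le (fun ρ hρ => ?_) (mul_nonneg ha.le rad_nonneg)) ?_
  · obtain ⟨h1, h2, h3, h4⟩ := hρ
    have e1 : a * x + b + ρ = a * (x + ρ / a) + b := by field_simp; ring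
    have e2 : a * x + b - ρ = a * (x - ρ / a) + b := by field_simp; ring
    have h5 : 0 ≤ ρ / a := div_nonneg h1 ha.le
    rw [e2] at h2
    rw [e1] at h3
    rw [e1, e2] at h4
    have h6 : l ≤ x - ρ / a := by
      by_contra hc
      push Not at hc
      nlinarith
    have h7 : x + ρ / a ≤ u := by
      by_contra hc
      push Not at hc
      nlinarith
    rw [hq _ _ h6 (by linarith) h7] at h4
    have h8 := le_rad (⟨h5, h6, h7, h4⟩ : ρ / a ∈ rset l u p r x)
    rw [div_le_iff₀ ha] at h8
    linarith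
  · rw [← le_div_iff₀' ha]
    refine Real.sSup_le (fun ρ hρ => ?_) (div_nonneg rad_nonneg ha.le)
    obtain ⟨h1, h2, h3, h4⟩ := hρ
    rw [le_div_iff₀' ha]
    refine le_rad ⟨mul_nonneg ha.le h1, ?_, ?_, ?_⟩
    · nlinarith
    · nlinarith
    · have e1 : a * x + b + a * ρ = a * (x + ρ) + b := by ring
      have e2 : a * x + b - a * ρ = a * (x - ρ) + b := by ring
      rw [e1, e2, hq _ _ h2 (by linarith) h3]
      exact h4

/-- Affine equivariance of the zone. -/
lemma zone_aff {a b : ℝ} (ha : 0 < a) {q : ℝ → ℝ} (hlx : l ≤ x) (hxu : x ≤ u)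
    (hq : ∀ x y, l ≤ x → x ≤ y → y ≤ u → q (a * y + b) - q (a * x + b) = p y - p x) :
    a * x + b ∈ zone (a * l + b) (a * u + b) q r ↔ x ∈ zone l u p r := by
  simp only [zone, mem_ofPred_eq]
  rw [hq l x le_rfl hlx hxu, hq x u hlx hxu le_rfl]
  constructor
  · rintro (h | h | h | h)
    · left; nlinarith
    · right; left; nlinarith
    · right; right; left; exact h
    · right; right; right; exact h
  · rintro (h | h | h | h)
    · left; nlinarith
    · right; left; nlinarith
    · right; right; left; exact h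
    · right; right; right; exact h

end Pool.Agent.H7.GT
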